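import Mathlib

/-!
Combinatorics of words over `{false, true}` used for the nil algebra: the lexicographic relation
`Lx`, the Fibonacci type words `al k`, `be k`, and the existence of block aligned increasing
factorisations of long factors of the `al k`.
-/

set_option autoImplicit false

namespace Pool.EngelNI

/-- `Lx u v`: at the first place where `u` and `v` differ, `u` has `false` and `v` has `true`. -/
def Lx (u v : List Bool) : Prop :=
  ∃ p s t : List Bool, u = p ++ false :: s ∧ v = p ++ true :: t

theorem Lx.append {u v : List Bool} (h : Lx u v) (s t : List Bool) : Lx (u ++ s) (v ++ t) := by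
  obtain ⟨p, s', t', rfl, rfl⟩ := h
  exact ⟨p, s' ++ s, t' ++ t, by simp, by simp⟩

theorem Lx.prepend {u v : List Bool} (h : Lx u v) (p : List Bool) : Lx (p ++ u) (p ++ v) := by
  obtain ⟨q, s', t', rfl, rfl⟩ := h
  exact ⟨p ++ q, s', t', by simp, by simp⟩

theorem Lx.mono {u v u' v' : List Bool} (h : Lx u v) (hu : u <+: u') (hv : v <+: v') :
    Lx u' v' := by
  obtain ⟨s, rfl⟩ := hu
  obtain ⟨t, rfl⟩ := hv
  exact h.append s t

theorem Lx.nil_left {v : List Bool} : ¬ Lx [] v := by
  rintro ⟨p, s, t, h, -⟩
  simp at h

theorem Lx.nil_right {v : List Bool} : ¬ Lx v [] := by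
  rintro ⟨p, s, t, -, h⟩
  simp at h

theorem Lx.cons_iff {a b : Bool} {u v : List Bool} :
    Lx (a :: u) (b :: v) ↔ (a = false ∧ b = true) ∨ (a = b ∧ Lx u v) := by
  constructor
  · rintro ⟨p, s, t, h1, h2⟩
    cases p with
    | nil =>
      simp only [List.nil_append, List.cons.injEq] at h1 h2
      left; exact ⟨h1.1, h2.1⟩
    | cons c p =>
      simp only [List.cons_append, List.cons.injEq] at h1 h2
      right
      exact ⟨h1.1.trans h2.1.symm, p, s, t, h1.2, h2.2⟩
  · rintro (⟨rfl, rfl⟩ | ⟨rfl, p, s, t, rfl, rfl⟩)
    · exact ⟨[], u, v, rfl, rfl⟩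
    · exact ⟨a :: p, s, t, rfl, rfl⟩

theorem Lx.irrefl (u : List Bool) : ¬ Lx u u := by
  induction u with
  | nil => exact Lx.nil_left
  | cons a u ih =>
    rw [Lx.cons_iff]
    rintro (⟨h1, h2⟩ | ⟨-, h⟩)
    · rw [h1] at h2; cases h2
    · exact ih h

theorem Lx.trans {u v w : List Bool} (h1 : Lx u v) (h2 : Lx v w) : Lx u w := by
  induction u generalizing v w with
  | nil => exact absurd h1 Lx.nil_left
  | cons a u ih =>
    cases v with
    | nil => exact absurd h1 Lx.nil_right
    | cons b v =>
      cases w with
      | nil => exact absurd h2 Lx.nil_right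
      | cons c w =>
        rw [Lx.cons_iff] at h1 h2 ⊢
        rcases h1 with ⟨rfl, rfl⟩ | ⟨rfl, h1⟩
        · rcases h2 with ⟨h, -⟩ | ⟨rfl, h2⟩
          · cases h
          · left; exact ⟨rfl, rfl⟩
        · rcases h2 with ⟨rfl, rfl⟩ | ⟨rfl, h2⟩
          · left; exact ⟨rfl, rfl⟩
          · right; exact ⟨rfl, ih h1 h2⟩

theorem Lx.asymm {u v : List Bool} (h : Lx u v) : ¬ Lx v u := fun h' => Lx.irrefl _ (h.trans h')

/-- permuting an increasing list of words increases the concatenation -/
theorem lx_perm {us vs : List (List Bool)} (h : us.Pairwise Lx) (hp : vs.Perm us)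
    (hne : vs ≠ us) : Lx us.flatten vs.flatten := by
  induction us generalizing vs with
  | nil => exact absurd (List.perm_nil.mp hp) hne
  | cons x xs ih =>
    rw [List.pairwise_cons] at h
    cases vs with
    | nil => exact absurd (List.nil_perm.mp hp).symm (by simp)
    | cons y ys =>
      by_cases hxy : y = x
      · subst hxy
        have hp' : ys.Perm xs := (List.perm_cons y).mp hp
        have hne' : ys ≠ xs := fun h' => hne (by rw [h'])
        simpa using (ih h.2 hp' hne').prepend y
      · have hy : y ∈ x :: xs := hp.subset (List.mem_cons_self)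
        rcases List.mem_cons.mp hy with h' | h'
        · exact absurd h' hxy
        · simpa using (h.1 y h').append xs.flatten ys.flatten

/-! ### The words `al k`, `be k` -/

/-- the pair of Fibonacci type words -/
def ab : ℕ → List Bool × List Bool
  | 0 => ([true], [false])
  | k + 1 => ((ab k).1 ++ (ab k).2, ((ab k).1 ++ (ab k).2) ++ (ab k).2)

/-- first family -/
def al (k : ℕ) : List Bool := (ab k).1

/-- second family -/
def be (k : ℕ) : List Bool := (ab k).2

theorem al_zero : al 0 = [true] := rfl
theorem be_zero : be 0 = [false] := rfl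
theorem al_succ (k : ℕ) : al (k + 1) = al k ++ be k := rfl
theorem be_succ (k : ℕ) : be (k + 1) = al (k + 1) ++ be k := rfl

theorem lx_be_al (k : ℕ) : Lx (be k ++ al k) (al k ++ be k) := by
  induction k with
  | zero => exact ⟨[], [true], [false], rfl, rfl⟩
  | succ k ih =>
    have h2 : Lx (be k ++ al (k + 1)) (al (k + 1) ++ be k) := by
      rw [al_succ]
      have := ih.append (be k) (be k)
      simpa [List.append_assoc] using this
    have := h2.prepend (al (k + 1))
    rw [be_succ]
    simpa [List.append_assoc] using this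

theorem lx_be_al' (k : ℕ) : Lx (be k ++ al (k + 1)) (al (k + 1) ++ be k) := by
  rw [al_succ]
  have := (lx_be_al k).append (be k) (be k)
  simpa [List.append_assoc] using this

theorem al_prefix_succ (k : ℕ) : al k <+: al (k + 1) := ⟨be k, rfl⟩

theorem al_prefix {k m : ℕ} (h : k ≤ m) : al k <+: al m := by
  induction m, h using Nat.le_induction with
  | base => exact List.prefix_rfl
  | succ m _ ih => exact ih.trans (al_prefix_succ m)

theorem al_prefix_be {k : ℕ} (h : 1 ≤ k) : al k <+: be k := by
  obtain ⟨k, rfl⟩ := Nat.exists_eq_add_of_le' h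
  exact ⟨be k, rfl⟩

theorem one_le_length_al (k : ℕ) : 1 ≤ (al k).length := by
  induction k with
  | zero => simp [al_zero]
  | succ k ih => rw [al_succ, List.length_append]; omega

theorem one_le_length_be (k : ℕ) : 1 ≤ (be k).length := by
  cases k with
  | zero => simp [be_zero]
  | succ k =>
    rw [be_succ, List.length_append]
    have := one_le_length_al (k + 1)
    omega

theorem length_al_ge (k : ℕ) : k ≤ (al k).length := by
  induction k with
  | zero => simp
  | succ k ih =>
    rw [al_succ, List.length_append]
    have := one_le_length_be k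
    omega

/-- the language of all factors of the words `al m` -/
def Fw (φ : List Bool) : Prop := ∃ m, φ <:+: al m

theorem Fw.factor {φ ψ : List Bool} (h : Fw φ) (h' : ψ <:+: φ) : Fw ψ := by
  obtain ⟨m, hm⟩ := h
  exact ⟨m, h'.trans hm⟩

theorem fw_al (k : ℕ) : Fw (al k) := ⟨k, List.infix_rfl⟩

/-- the substitution `true ↦ al i`, `false ↦ be i` -/
def sub (i : ℕ) (c : List Bool) : List Bool :=
  (c.map (fun b => if b then al i else be i)).flatten

theorem sub_append (i : ℕ) (c d : List Bool) : sub i (c ++ d) = sub i c ++ sub i d := by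
  simp [sub]

theorem sub_cons (i : ℕ) (b : Bool) (d : List Bool) :
    sub i (b :: d) = (if b then al i else be i) ++ sub i d := by
  simp [sub]

theorem sub_nil (i : ℕ) : sub i [] = [] := rfl

theorem sub_ab (i t : ℕ) : sub i (al t) = al (i + t) ∧ sub i (be t) = be (i + t) := by
  induction t with
  | zero => simp [al_zero, be_zero, sub]
  | succ t ih =>
    have h1 : sub i (al (t + 1)) = al (i + (t + 1)) := by
      rw [al_succ, sub_append, ih.1, ih.2, ← add_assoc, al_succ]
    refine ⟨h1, ?_⟩
    rw [be_succ, sub_append, h1, ih.2, ← add_assoc, be_succ]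

/-- a long factor of a concatenation of short blocks contains a block -/
theorem exists_block {bs : List (List Bool)} {ℓ : ℕ} (hℓ : ∀ b ∈ bs, b.length ≤ ℓ)
    {φ : List Bool} (h : φ <:+: bs.flatten) (hφ : 2 * ℓ ≤ φ.length) (hφ0 : φ ≠ []) :
    ∃ b ∈ bs, b <:+: φ := by
  induction bs with
  | nil =>
    simp only [List.flatten_nil, List.infix_nil] at h
    exact absurd h hφ0
  | cons b bs ih =>
    obtain ⟨s, t, hst⟩ := h
    simp only [List.flatten_cons] at hst
    have hb := hℓ b (List.mem_cons_self)
    by_cases hs : b.length ≤ s.length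
    · -- φ lies in the rest
      have : φ <:+: bs.flatten := by
        refine ⟨s.drop b.length, t, ?_⟩
        have h1 : (s ++ φ ++ t).drop b.length = bs.flatten := by
          rw [hst]; simp
        rw [← h1, List.append_assoc, List.append_assoc, List.drop_append_of_le_length hs]
      obtain ⟨c, hc, hc'⟩ := ih (fun c hc => hℓ c (List.mem_cons_of_mem _ hc)) this
      exact ⟨c, List.mem_cons_of_mem _ hc, hc'⟩
    · push Not at hs
      -- `b = s ++ b'`
      have hsb : s <+: b := by
        have h1 : s <+: b ++ bs.flatten := ⟨φ ++ t, by rw [← hst]; simp⟩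
        exact List.prefix_of_prefix_length_le h1 (List.prefix_append _ _) hs.le
      obtain ⟨b', rfl⟩ := hsb
      have h2 : φ ++ t = b' ++ bs.flatten := by
        have : s ++ (φ ++ t) = s ++ (b' ++ bs.flatten) := by
          simpa [List.append_assoc] using hst
        exact List.append_cancel_left this
      simp only [List.length_append] at hb hs
      cases bs with
      | nil =>
        simp only [List.flatten_nil, List.append_nil] at h2
        have h3 : φ.length ≤ b'.length := by
          have := congrArg List.length h2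
          simp only [List.length_append] at this
          omega
        have h4 : φ.length = 0 := by omega
        exact absurd (List.length_eq_zero_iff.mp h4) hφ0
      | cons c cs =>
        refine ⟨c, by simp, ?_⟩
        have hc := hℓ c (by simp)
        have h5 : b' ++ c <+: φ := by
          have h1 : b' ++ c <+: φ ++ t := ⟨cs.flatten, by rw [h2]; simp⟩
          refine List.prefix_of_prefix_length_le h1 (List.prefix_append _ _) ?_
          simp only [List.length_append]
          omega
        exact (List.suffix_append b' c).isInfix.trans h5.isInfix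

/-- every long enough word of the language contains `al m` -/
theorem exists_contains_al (m : ℕ) (hm : 1 ≤ m) :
    ∃ L, ∀ φ, Fw φ → L ≤ φ.length → al m <:+: φ := by
  refine ⟨2 * (al m ++ be m).length + 1, fun φ hφ hL => ?_⟩
  obtain ⟨M, hM⟩ := hφ
  have hM' : φ <:+: al (m + M) := hM.trans (al_prefix (by omega)).isInfix
  rw [← (sub_ab m M).1] at hM'
  have hφ0 : φ ≠ [] := by
    rintro rfl
    simp at hL
  obtain ⟨b, hb, hb'⟩ := exists_block (ℓ := (al m ++ be m).length) (by
    intro b hb
    simp only [List.mem_map] at hb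
    obtain ⟨c, -, rfl⟩ := hb
    split_ifs <;> simp) hM' (by omega) hφ0
  simp only [List.mem_map] at hb
  obtain ⟨c, -, rfl⟩ := hb
  split_ifs at hb'
  · exact hb'
  · exact (al_prefix_be hm).isInfix.trans hb'

/-! ### lengths modulo `D` -/

/-- the length map as a permutation of `ZMod D × ZMod D` -/
def Tperm (D : ℕ) : Equiv.Perm (ZMod D × ZMod D) where
  toFun p := (p.1 + p.2, p.1 + 2 * p.2)
  invFun p := (2 * p.1 - p.2, p.2 - p.1)
  left_inv p := by ext <;> simp <;> ring
  right_inv p := by ext <;> simp <;> ring

theorem length_pair (D : ℕ) (i : ℕ) :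
    (((al i).length : ZMod D), ((be i).length : ZMod D)) = (Tperm D ^ (i + 1)) (1, 0) := by
  induction i with
  | zero => simp [al_zero, be_zero, Tperm]
  | succ i ih =>
    rw [pow_succ', Equiv.Perm.mul_apply, ← ih]
    simp only [Tperm, Equiv.coe_fn_mk, be_succ, al_succ, List.length_append, Nat.cast_add,
      Prod.mk.injEq, true_and]
    ring

theorem exists_good_index (D : ℕ) [NeZero D] (j : ℕ) :
    ∃ i, j ≤ i ∧ ((al i).length : ZMod D) = 1 ∧ ((be i).length : ZMod D) = 0 := by
  have ho : 0 < orderOf (Tperm D) := orderOf_pos _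
  obtain ⟨i, hi⟩ : ∃ i, i + 1 = orderOf (Tperm D) * (j + 1) :=
    ⟨orderOf (Tperm D) * (j + 1) - 1, Nat.sub_add_cancel (Nat.mul_pos ho (Nat.succ_pos j))⟩
  refine ⟨i, ?_, ?_⟩
  · have : j + 1 ≤ orderOf (Tperm D) * (j + 1) := Nat.le_mul_of_pos_left _ ho
    omega
  · have := length_pair D i
    rw [hi, pow_mul, pow_orderOf_eq_one, one_pow] at this
    simp only [Equiv.Perm.coe_one, id_eq, Prod.mk.injEq] at this
    exact this

theorem count_true_split (l : List Bool) (k : ℕ) (hk : k < l.count true) :
    ∃ c c' : List Bool, l = c ++ true :: c' ∧ c.count true = k := by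
  induction l generalizing k with
  | nil => simp at hk
  | cons b l ih =>
    cases b with
    | false =>
      simp only [List.count_cons] at hk
      obtain ⟨c, c', rfl, h⟩ := ih k (by simpa using hk)
      exact ⟨false :: c, c', rfl, by simpa using h⟩
    | true =>
      cases k with
      | zero => exact ⟨[], l, rfl, rfl⟩
      | succ k =>
        simp only [List.count_cons] at hk
        obtain ⟨c, c', rfl, h⟩ := ih k (by simpa using hk)
        exact ⟨true :: c, c', rfl, by simpa using h⟩

theorem count_true_al (t : ℕ) : t ≤ (al t).count true := by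
  cases t with
  | zero => simp
  | succ t =>
    induction t with
    | zero => simp [al_succ, al_zero, be_zero]
    | succ t ih =>
      rw [al_succ (t + 1), List.count_append]
      have h1 : (al (t + 1)).count true ≤ (be (t + 1)).count true :=
        (al_prefix_be (by omega)).sublist.count_le true
      omega

theorem length_sub (D : ℕ) (i : ℕ) (h1 : ((al i).length : ZMod D) = 1)
    (h0 : ((be i).length : ZMod D) = 0) (c : List Bool) :
    ((sub i c).length : ZMod D) = (c.count true : ZMod D) := by
  induction c with
  | nil => simp [sub_nil]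
  | cons b c ih =>
    rw [sub_cons]
    cases b with
    | false => simp [ih, h0]
    | true => simp [ih, h1, add_comm]

/-- recurrence in residue classes -/
theorem exists_occurrence (D : ℕ) [NeZero D] (w : List Bool) (hw : Fw w) :
    ∃ L, ∀ φ, Fw φ → L ≤ φ.length →
      ∃ a b : List Bool, φ = a ++ w ++ b ∧ D ∣ a.length := by
  obtain ⟨j, hj⟩ := hw
  obtain ⟨i, hji, h1, h0⟩ := exists_good_index D (j + 1)
  have hi1 : 1 ≤ i := by omega
  obtain ⟨L, hL⟩ := exists_contains_al (i + D) (by omega)
  refine ⟨L, fun φ hφ hφL => ?_⟩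
  obtain ⟨s, t, hst⟩ := hL φ hφ hφL
  have hwi : w <:+: al i := hj.trans (al_prefix (by omega)).isInfix
  obtain ⟨x, y, hxy⟩ := hwi
  rw [← (sub_ab i D).1] at hst
  -- choose the residue
  set r : ZMod D := -((s.length : ZMod D) + (x.length : ZMod D)) with hr
  have hrlt : r.val < (al D).count true :=
    lt_of_lt_of_le (ZMod.val_lt r) (count_true_al D)
  obtain ⟨c, c', hc, hcount⟩ := count_true_split (al D) r.val hrlt
  refine ⟨s ++ sub i c ++ x, y ++ sub i c' ++ t, ?_, ?_⟩
  · rw [← hst, hc, sub_append, sub_cons, if_pos rfl, ← hxy]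
    simp [List.append_assoc]
  · rw [← ZMod.natCast_eq_zero_iff]
    simp only [List.length_append, Nat.cast_add]
    rw [length_sub D i h1 h0, hcount, ZMod.natCast_zmod_val, hr]
    ring

/-- existence of block aligned increasing factorisations -/
theorem exists_chain (D : ℕ) [NeZero D] (n : ℕ) : ∀ i : ℕ, 1 ≤ i →
    ∃ L, ∀ φ, Fw φ → L ≤ φ.length →
      ∃ (a b : List Bool) (us : List (List Bool)), φ = a ++ us.flatten ++ b ∧
        us.length = n ∧ D ∣ a.length ∧ (∀ u ∈ us, D ∣ u.length) ∧ us.Pairwise Lx ∧
        (∀ u ∈ us, al i <+: u) := by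
  induction n with
  | zero =>
    intro i _
    refine ⟨0, fun φ _ _ => ⟨[], φ, [], by simp, rfl, by simp, by simp, by simp, by simp⟩⟩
  | succ n ih =>
    intro i hi
    obtain ⟨L', hL'⟩ := ih (i + 1) (by omega)
    have hw : Fw (be i ++ al i) := by
      refine ⟨i + 2, al i, be i ++ be i, ?_⟩
      rw [al_succ (i + 1), be_succ i, al_succ i]
      simp [List.append_assoc]
    obtain ⟨L'', hL''⟩ := exists_occurrence D _ hw
    refine ⟨L'' + D + L', fun φ hφ hφL => ?_⟩
    have hφ1 : Fw (φ.take L'') := hφ.factor (List.take_prefix _ _).isInfix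
    have hlen1 : (φ.take L'').length = L'' := by
      rw [List.length_take]; omega
    obtain ⟨a, b1, hab, hDa⟩ := hL'' _ hφ1 (by omega)
    -- fill up to a multiple of `D`
    set m := (be i ++ al i ++ b1).length with hm
    obtain ⟨r, hrD, hr⟩ : ∃ r, r < D ∧ D ∣ m + r := by
      have hD : 0 < D := Nat.pos_of_ne_zero (NeZero.ne D)
      by_cases h : m % D = 0
      · exact ⟨0, hD, by simpa using Nat.dvd_of_mod_eq_zero h⟩
      · refine ⟨D - m % D, by omega, ?_⟩
        have h2 := Nat.div_add_mod m D
        have h3 := Nat.mod_lt m hD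
        refine ⟨m / D + 1, ?_⟩
        rw [mul_add, mul_one]
        omega
    set φ2 := φ.drop L'' with hφ2
    have hlen2 : D + L' ≤ φ2.length := by
      rw [hφ2, List.length_drop]; omega
    have hφ3 : Fw (φ2.drop r) :=
      hφ.factor ((List.drop_suffix _ _).trans (List.drop_suffix _ _)).isInfix
    obtain ⟨a', b', us, h1, h2, h3, h4, h5, h6⟩ := hL' _ hφ3 (by
      rw [List.length_drop]; omega)
    have hdecomp : φ = a ++ ((be i ++ al i ++ b1 ++ φ2.take r) ++ a') ++ us.flatten ++ b' := by
      calc φ = φ.take L'' ++ φ2 := (List.take_append_drop _ _).symm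
        _ = (a ++ (be i ++ al i) ++ b1) ++ (φ2.take r ++ φ2.drop r) := by
            rw [hab, List.take_append_drop]
        _ = _ := by rw [h1]; simp [List.append_assoc]
    refine ⟨a, b', ((be i ++ al i ++ b1 ++ φ2.take r) ++ a') :: us, ?_, by simp [h2], hDa,
      ?_, ?_, ?_⟩
    · rw [hdecomp]; simp [List.append_assoc]
    · intro u hu
      rcases List.mem_cons.mp hu with rfl | hu
      · rw [List.length_append, List.length_append, List.length_take, ← hm]
        refine dvd_add ?_ h3
        rw [Nat.min_eq_left (by omega)]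
        exact hr
      · exact h4 u hu
    · rw [List.pairwise_cons]
      refine ⟨fun u hu => ?_, h5⟩
      have h7 := h6 u hu
      have h8 := lx_be_al i
      rw [← al_succ] at h8
      exact h8.mono ⟨b1 ++ φ2.take r ++ a', by simp [List.append_assoc]⟩ h7
    · intro u hu
      rcases List.mem_cons.mp hu with rfl | hu
      · refine (al_prefix_be hi).trans ⟨al i ++ b1 ++ φ2.take r ++ a', ?_⟩
        simp [List.append_assoc]
      · exact (al_prefix_succ i).trans (h6 u hu)

end Pool.EngelNI
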