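import Mathlib
import Pool.Agent.EngelNI.Words

/-!
The free algebra on two letters with its word basis, the coefficient pairing, right residuals,
and the standard identity satisfied by windows of powers of a polynomial of bounded degree.
-/

set_option autoImplicit false

open scoped Polynomial

noncomputable section

namespace Pool.EngelNI

/-! ### the standard polynomial -/

/-- the standard polynomial -/
def stp {R : Type*} [Ring R] (n : ℕ) (v : Fin n → R) : R :=
  ∑ σ : Equiv.Perm (Fin n), (Equiv.Perm.sign σ : ℤ) • (List.ofFn (fun i => v (σ i))).prod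

theorem map_stp {R S : Type*} [Ring R] [Ring S] (φ : R →+* S) (n : ℕ) (v : Fin n → R) :
    φ (stp n v) = stp n (fun i => φ (v i)) := by
  simp only [stp, map_sum, map_zsmul, map_list_prod, List.map_ofFn]
  rfl

theorem stp_eq_zero {K A : Type*} [CommRing K] [IsDomain K] [Ring A] [Algebra K A]
    [Module.Free K A] [Module.Finite K A] (n : ℕ) (hn : Module.finrank K A < n)
    (v : Fin n → A) : stp n v = 0 := by
  have h := (MultilinearMap.alternatization (MultilinearMap.mkPiAlgebraFin K n A)
    ).map_linearDependent v (fun h => by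
      have := h.fintype_card_le_finrank
      simp at this
      omega)
  rw [MultilinearMap.alternatization_apply] at h
  simpa [stp, MultilinearMap.domDomCongr_apply, Units.smul_def] using h

/-! ### words in the free algebra -/

/-- the free algebra on two letters, as a monoid algebra -/
abbrev B (F : Type*) [Field F] := MonoidAlgebra F (FreeMonoid Bool)

variable {F : Type*} [Field F]

/-- a word as an element of the free algebra -/
def wd (F : Type*) [Field F] (l : List Bool) : B F := MonoidAlgebra.single (FreeMonoid.ofList l) 1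

theorem wd_mul (u v : List Bool) : wd F u * wd F v = wd F (u ++ v) := by
  simp [wd, MonoidAlgebra.single_mul_single]

theorem wd_nil : wd F [] = 1 := rfl

/-- the basis of words -/
def bas (F : Type*) [Field F] : Module.Basis (List Bool) F (B F) :=
  (MonoidAlgebra.basis (FreeMonoid Bool) F).reindex FreeMonoid.toList

theorem bas_apply (l : List Bool) : bas F l = wd F l := by
  simp [bas, wd]

/-- two linear maps that agree on words are equal -/
theorem lin_ext {M : Type*} [AddCommMonoid M] [Module F M] {φ ψ : B F →ₗ[F] M}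
    (h : ∀ l, φ (wd F l) = ψ (wd F l)) : φ = ψ :=
  (bas F).ext (fun l => by rw [bas_apply, h])

/-- the coefficient functional -/
def cf (F : Type*) [Field F] (l : List Bool) : B F →ₗ[F] F := (bas F).coord l

theorem cf_wd (l m : List Bool) : cf F l (wd F m) = if m = l then 1 else 0 := by
  rw [cf, ← bas_apply, Module.Basis.coord_apply, Module.Basis.repr_self, Finsupp.single_apply]

/-- the pairing for which words are orthonormal -/
def pr (F : Type*) [Field F] : B F →ₗ[F] B F →ₗ[F] F := (bas F).constr F (fun l => cf F l)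

theorem pr_wd (l : List Bool) : pr F (wd F l) = cf F l := by
  rw [pr, ← bas_apply, Module.Basis.constr_basis]

theorem pr_wd_wd (l m : List Bool) : pr F (wd F l) (wd F m) = if m = l then 1 else 0 := by
  rw [pr_wd, cf_wd]

/-- right residual by a letter -/
def Rx (F : Type*) [Field F] (x : Bool) : B F →ₗ[F] B F :=
  (bas F).constr F (fun l => if l.getLast? = some x then wd F l.dropLast else 0)

theorem Rx_wd (x : Bool) (l : List Bool) :
    Rx F x (wd F l) = if l.getLast? = some x then wd F l.dropLast else 0 := by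
  rw [Rx, ← bas_apply, Module.Basis.constr_basis]

theorem Rx_one (x : Bool) : Rx F x 1 = 0 := by
  rw [← wd_nil, Rx_wd]; simp

theorem Rx_wd_append (x y : Bool) (l : List Bool) :
    Rx F x (wd F (l ++ [y])) = if y = x then wd F l else 0 := by
  rw [Rx_wd]; simp

theorem Rx_mul_letter (x y : Bool) (r : B F) :
    Rx F x (r * wd F [y]) = if y = x then r else 0 := by
  have : (Rx F x) ∘ₗ (LinearMap.mulRight F (wd F [y])) = if y = x then LinearMap.id else 0 := by
    apply lin_ext
    intro l
    simp only [LinearMap.comp_apply, LinearMap.mulRight_apply, wd_mul, Rx_wd_append]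
    split_ifs <;> simp
  have h := LinearMap.congr_fun this r
  simp only [LinearMap.comp_apply, LinearMap.mulRight_apply] at h
  rw [h]
  split_ifs <;> simp

theorem Rx_mul (x : Bool) (r s : B F) :
    Rx F x (r * s) = r * Rx F x s + cf F [] s • Rx F x r := by
  have : (Rx F x) ∘ₗ (LinearMap.mulLeft F r) =
      (LinearMap.mulLeft F r) ∘ₗ (Rx F x) + (cf F []).smulRight (Rx F x r) := by
    apply lin_ext
    intro l
    simp only [LinearMap.comp_apply, LinearMap.mulLeft_apply, LinearMap.add_apply,
      LinearMap.smulRight_apply]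
    rcases List.eq_nil_or_concat l with rfl | ⟨m, y, rfl⟩
    · rw [cf_wd, if_pos rfl, one_smul, wd_nil, mul_one, Rx_one, mul_zero, zero_add]
    · rw [List.concat_eq_append, cf_wd, if_neg (by simp), zero_smul, add_zero, ← wd_mul,
        ← mul_assoc, Rx_mul_letter, Rx_mul_letter]
      split_ifs <;> simp
  exact LinearMap.congr_fun this s

theorem cf_append (l : List Bool) (x : Bool) (r : B F) :
    cf F (l ++ [x]) r = cf F l (Rx F x r) := by
  have : cf F (l ++ [x]) = (cf F l) ∘ₗ (Rx F x) := by
    apply lin_ext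
    intro m
    rw [LinearMap.comp_apply, cf_wd]
    rcases List.eq_nil_or_concat m with rfl | ⟨m, y, rfl⟩
    · simp [wd_nil, Rx_one]
    · rw [List.concat_eq_append, Rx_wd_append]
      by_cases hy : y = x
      · subst hy
        rw [if_pos rfl, cf_wd]
        simp
      · rw [if_neg hy, map_zero, if_neg]
        simp [hy]
  exact LinearMap.congr_fun this r

theorem pr_mul_letter (Λ : B F) (x : Bool) (r : B F) :
    pr F (Λ * wd F [x]) r = pr F Λ (Rx F x r) := by
  have : (pr F).flip r ∘ₗ LinearMap.mulRight F (wd F [x]) = (pr F).flip (Rx F x r) := by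
    apply lin_ext
    intro l
    simp only [LinearMap.comp_apply, LinearMap.mulRight_apply, wd_mul, LinearMap.flip_apply,
      pr_wd, cf_append]
  exact LinearMap.congr_fun this Λ

/-- the algebra map sending a word to its right residual operator -/
def Rop (F : Type*) [Field F] : B F →ₐ[F] Module.End F (B F) :=
  MonoidAlgebra.lift F (Module.End F (B F)) (FreeMonoid Bool) (FreeMonoid.lift (fun x => Rx F x))

theorem Rop_nil : Rop F (wd F []) = 1 := by
  rw [wd_nil, map_one]

theorem Rop_letter (x : Bool) : Rop F (wd F [x]) = Rx F x := by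
  simp only [Rop, wd, MonoidAlgebra.lift_single, one_smul]
  rfl

theorem Rop_cons (x : Bool) (l : List Bool) :
    Rop F (wd F (x :: l)) = Rx F x * Rop F (wd F l) := by
  rw [← List.singleton_append, ← wd_mul, map_mul, Rop_letter]

theorem pr_mul (Λ Θ : B F) (r : B F) : pr F (Λ * Θ) r = pr F Λ (Rop F Θ r) := by
  have h : ∀ (l : List Bool) (Λ : B F), pr F (Λ * wd F l) r = pr F Λ (Rop F (wd F l) r) := by
    intro l
    induction l with
    | nil => intro Λ; rw [Rop_nil, wd_nil, mul_one]; rfl
    | cons x l ih =>
      intro Λ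
      rw [Rop_cons, ← List.singleton_append, ← wd_mul, ← mul_assoc, ih, pr_mul_letter]
      rfl
  have : (pr F).flip r ∘ₗ LinearMap.mulLeft F Λ =
      (pr F Λ) ∘ₗ ((LinearMap.applyₗ r) ∘ₗ (Rop F).toLinearMap) := by
    apply lin_ext
    intro l
    simpa using h l Λ
  exact LinearMap.congr_fun this Θ

/-! ### powers of a polynomial -/

/-- polynomials with support in words of length between `1` and `d` -/
def Bpl (F : Type*) [Field F] (d : ℕ) : Submodule F (B F) :=
  Submodule.span F (wd F '' {l | 1 ≤ l.length ∧ l.length ≤ d})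

/-- polynomials with support in words of length at most `d` -/
def Ble (F : Type*) [Field F] (d : ℕ) : Submodule F (B F) :=
  Submodule.span F (wd F '' {l | l.length ≤ d})

theorem Bpl_le (d : ℕ) : Bpl F d ≤ Ble F d :=
  Submodule.span_mono (Set.image_mono (fun _ h => h.2))

theorem cf_nil_Bpl {d : ℕ} {f : B F} (hf : f ∈ Bpl F d) : cf F [] f = 0 := by
  have : Bpl F d ≤ LinearMap.ker (cf F []) := by
    rw [Bpl, Submodule.span_le]
    rintro _ ⟨l, hl, rfl⟩
    simp only [SetLike.mem_coe, LinearMap.mem_ker, cf_wd]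
    rw [if_neg]
    rintro rfl
    simp at hl
  exact this hf

theorem Rx_Ble {d : ℕ} {x : Bool} {f : B F} (hf : f ∈ Ble F d) : Rx F x f ∈ Ble F d := by
  have : Ble F d ≤ (Ble F d).comap (Rx F x) := by
    rw [Ble, Submodule.span_le]
    rintro _ ⟨l, hl, rfl⟩
    simp only [SetLike.mem_coe, Submodule.mem_comap, Rx_wd]
    split_ifs
    · refine Submodule.subset_span ⟨_, ?_, rfl⟩
      simp only [Set.mem_ofPred_eq, List.length_dropLast] at hl ⊢
      omega
    · exact Submodule.zero_mem _
  exact this hf

/-- the index type: words of length at most `d` -/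
abbrev Idx (d : ℕ) := {l : List Bool // l.length ≤ d}

instance (d : ℕ) : Finite (Idx d) := (List.finite_length_le Bool d).to_subtype

instance (d : ℕ) : Fintype (Idx d) := Fintype.ofFinite _

theorem sum_Ble {d : ℕ} {b : B F} (hb : b ∈ Ble F d) :
    ∑ w : Idx d, cf F w.1 b • wd F w.1 = b := by
  have : Ble F d ≤ LinearMap.ker ((∑ w : Idx d, (cf F w.1).smulRight (wd F w.1)) -
      LinearMap.id) := by
    rw [Ble, Submodule.span_le]
    rintro _ ⟨l, hl, rfl⟩
    simp only [SetLike.mem_coe, LinearMap.mem_ker, LinearMap.sub_apply, LinearMap.sum_apply,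
      LinearMap.smulRight_apply, LinearMap.id_apply, cf_wd, sub_eq_zero]
    rw [Finset.sum_eq_single (⟨l, hl⟩ : Idx d)]
    · simp
    · rintro w - hw
      rw [if_neg, zero_smul]
      intro h
      exact hw (Subtype.ext h.symm)
    · simp
  have h := this hb
  simpa [sub_eq_zero] using h

/-- the substitution `z^j e_w ↦ f^(N-j) w` -/
def ev {d : ℕ} (f : B F) (N : ℕ) : (Idx d → F[X]) →ₗ[F] B F :=
  ∑ w : Idx d, ((Polynomial.basisMonomials F).constr F
    (fun j => if j ≤ N then f ^ (N - j) * wd F w.1 else 0)) ∘ₗ (LinearMap.proj w)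

theorem ev_single {d : ℕ} (f : B F) (N : ℕ) (w : Idx d) (j : ℕ) :
    ev f N (Pi.single w (Polynomial.monomial j 1)) =
      if j ≤ N then f ^ (N - j) * wd F w.1 else 0 := by
  classical
  simp only [ev, LinearMap.sum_apply, LinearMap.comp_apply, LinearMap.proj_apply]
  rw [Finset.sum_eq_single w]
  · rw [Pi.single_eq_same]
    have : (Polynomial.monomial j (1 : F)) = Polynomial.basisMonomials F j := by simp
    rw [this, Module.Basis.constr_basis]
  · intro w' _ hw'
    rw [Pi.single_eq_of_ne hw', map_zero]
  · simp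

/-- two linear maps on vectors of polynomials that agree on monomials are equal -/
theorem vec_ext {d : ℕ} {M : Type*} [AddCommMonoid M] [Module F M]
    {φ ψ : (Idx d → F[X]) →ₗ[F] M}
    (h : ∀ w j, φ (Pi.single w (Polynomial.monomial j 1)) =
      ψ (Pi.single w (Polynomial.monomial j 1))) : φ = ψ := by
  classical
  apply LinearMap.pi_ext'
  intro w
  apply Polynomial.lhom_ext'
  intro j
  apply LinearMap.ext_ring
  simpa using h w j

theorem ev_monomial_smul {d : ℕ} (f : B F) (N j : ℕ) {b : B F} (hb : b ∈ Ble F d) :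
    ev f N (fun w : Idx d => Polynomial.monomial j (cf F w.1 b)) =
      if j ≤ N then f ^ (N - j) * b else 0 := by
  classical
  have h1 : (fun w : Idx d => Polynomial.monomial j (cf F w.1 b)) =
      ∑ w : Idx d, cf F w.1 b • (Pi.single w (Polynomial.monomial j 1) : Idx d → F[X]) := by
    funext w
    rw [Finset.sum_apply, Finset.sum_eq_single w]
    · simp [Polynomial.smul_monomial]
    · intro w' _ hw'
      rw [Pi.smul_apply, Pi.single_eq_of_ne hw'.symm, smul_zero]
    · simp
  rw [h1, map_sum]
  simp only [map_smul, ev_single]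
  split_ifs with hj
  · conv_rhs => rw [← sum_Ble hb, Finset.mul_sum]
    simp
  · simp

/-- the matrix of the letter `x` -/
def Mx {d : ℕ} (f : B F) (x : Bool) : Matrix (Idx d) (Idx d) F[X] :=
  Matrix.of (fun w' w => Polynomial.C (cf F w'.1 (Rx F x (wd F w.1))) +
    (if w.1 = [] then Polynomial.monomial 1 (cf F w'.1 (Rx F x f)) else 0))

theorem Rx_pow_succ {f : B F} (hf : cf F [] f = 0) (x : Bool) (k : ℕ) :
    Rx F x (f ^ (k + 1)) = f ^ k * Rx F x f := by
  rw [pow_succ, Rx_mul, hf, zero_smul, add_zero]

theorem ev_Mx {d : ℕ} {f : B F} (hf : f ∈ Bpl F d) (N : ℕ) (x : Bool) (v : Idx d → F[X]) :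
    ev f N ((Mx f x).mulVec v) = Rx F x (ev f N v) := by
  classical
  have hf0 := cf_nil_Bpl hf
  have : (ev (d := d) f N) ∘ₗ ((Matrix.mulVecLin (Mx f x)).restrictScalars F) =
      (Rx F x) ∘ₗ (ev f N) := by
    apply vec_ext
    intro w j
    simp only [LinearMap.comp_apply, LinearMap.restrictScalars_apply, Matrix.mulVecLin_apply,
      ev_single]
    have h1 : (Mx f x).mulVec (Pi.single w (Polynomial.monomial j (1 : F))) =
        (fun w' : Idx d => Polynomial.monomial j (cf F w'.1 (Rx F x (wd F w.1)))) +
        (if w.1 = [] then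
          (fun w' : Idx d => Polynomial.monomial (j + 1) (cf F w'.1 (Rx F x f))) else 0) := by
      funext w'
      rw [Matrix.mulVec_single]
      simp only [MulOpposite.smul_eq_mul_unop, MulOpposite.unop_op, Matrix.col_apply, Mx,
        Matrix.of_apply, Pi.smul_apply, Pi.add_apply]
      rw [add_mul, Polynomial.C_mul_monomial, mul_one]
      split_ifs with hw
      · rw [Polynomial.monomial_mul_monomial, mul_one, add_comm 1 j]
      · simp
    rw [h1, map_add, ev_monomial_smul f N j
      (Rx_Ble (Submodule.subset_span ⟨w.1, w.2, rfl⟩))]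
    by_cases hw : w.1 = []
    · rw [if_pos hw, ev_monomial_smul f N (j + 1) (Rx_Ble (Bpl_le d hf)), hw, wd_nil, Rx_one]
      simp only [mul_zero, mul_one, ite_self, zero_add]
      by_cases hj : j + 1 ≤ N
      · rw [if_pos hj, if_pos (by omega)]
        obtain ⟨k, hk⟩ : ∃ k, N - j = k + 1 := ⟨N - j - 1, by omega⟩
        rw [hk, Rx_pow_succ hf0, show N - (j + 1) = k by omega]
      · rw [if_neg hj]
        split_ifs with hj'
        · rw [show N - j = 0 by omega, pow_zero, Rx_one]
        · simp
    · rw [if_neg hw, map_zero, add_zero]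
      split_ifs with hj
      · rw [Rx_mul, cf_wd, if_neg hw, zero_smul, add_zero]
      · simp
  exact LinearMap.congr_fun this v

/-- the representation of the free algebra attached to `f` -/
def Mrep {d : ℕ} (f : B F) : B F →ₐ[F] Matrix (Idx d) (Idx d) F[X] :=
  MonoidAlgebra.lift F (Matrix (Idx d) (Idx d) F[X]) (FreeMonoid Bool)
    (FreeMonoid.lift (fun x => Mx f x))

theorem Mrep_letter {d : ℕ} (f : B F) (x : Bool) :
    Mrep (d := d) f (wd F [x]) = Mx f x := by
  simp only [Mrep, wd, MonoidAlgebra.lift_single, one_smul]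
  rfl

theorem Mrep_cons {d : ℕ} (f : B F) (x : Bool) (l : List Bool) :
    Mrep (d := d) f (wd F (x :: l)) = Mx f x * Mrep f (wd F l) := by
  rw [← List.singleton_append, ← wd_mul, map_mul, Mrep_letter]

theorem ev_Mrep {d : ℕ} {f : B F} (hf : f ∈ Bpl F d) (N : ℕ) (Θ : B F) (v : Idx d → F[X]) :
    ev f N ((Mrep f Θ).mulVec v) = Rop F Θ (ev f N v) := by
  classical
  have h : ∀ (l : List Bool), ev f N ((Mrep f (wd F l)).mulVec v) =
      Rop F (wd F l) (ev f N v) := by
    intro l
    induction l with
    | nil => rw [Rop_nil, wd_nil, map_one, Matrix.one_mulVec]; rfl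
    | cons x l ih =>
      rw [Rop_cons, Mrep_cons, ← Matrix.mulVec_mulVec, ev_Mx hf, ih]
      rfl
  have h2 : (ev f N) ∘ₗ ((((Matrix.mulVecBilin F F).flip v)) ∘ₗ
      (Mrep (d := d) f).toLinearMap) = (LinearMap.applyₗ (ev f N v)) ∘ₗ (Rop F).toLinearMap := by
    apply lin_ext
    intro l
    simpa using h l
  have := LinearMap.congr_fun h2 Θ
  simpa using this

theorem pr_pow_eq_zero {d : ℕ} {f : B F} (hf : f ∈ Bpl F d) {Θ : B F}
    (hΘ : Mrep (d := d) f Θ = 0) (N : ℕ) (p q : B F) : pr F (p * Θ * q) (f ^ N) = 0 := by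
  classical
  have h0 : f ^ N = ev f N (Pi.single (⟨[], by simp⟩ : Idx d) (Polynomial.monomial 0 1)) := by
    rw [ev_single, if_pos (Nat.zero_le _), wd_nil, mul_one, Nat.sub_zero]
  rw [mul_assoc, pr_mul, h0, ← ev_Mrep hf, map_mul, hΘ, zero_mul, Matrix.zero_mulVec, map_zero,
    map_zero]

/-- the set of elements all of whose two-sided multiples are orthogonal to powers of polynomials
of degree at most `d` without constant term -/
def J (F : Type*) [Field F] (d : ℕ) : Submodule F (B F) where
  carrier := {Θ | ∀ f ∈ Bpl F d, ∀ (N : ℕ) (p q : B F), pr F (p * Θ * q) (f ^ N) = 0}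
  add_mem' {a b} ha hb f hf N p q := by
    rw [mul_add, add_mul, map_add, LinearMap.add_apply, ha f hf, hb f hf, add_zero]
  zero_mem' f hf N p q := by simp
  smul_mem' c a ha f hf N p q := by
    rw [mul_smul_comm, smul_mul_assoc, map_smul, LinearMap.smul_apply, ha f hf, smul_zero]

theorem J_mul {d : ℕ} {Θ : B F} (h : Θ ∈ J F d) (a b : B F) : a * Θ * b ∈ J F d := by
  intro f hf N p q
  have := h f hf N (p * a) (b * q)
  rw [← this]
  congr 2
  simp [mul_assoc]

/-- the standard identity -/
theorem exists_stp_mem_J (F : Type*) [Field F] (d : ℕ) :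
    ∃ n : ℕ, ∀ v : Fin n → B F, stp n v ∈ J F d := by
  classical
  refine ⟨Module.finrank F[X] (Matrix (Idx d) (Idx d) F[X]) + 1, fun v f hf N p q => ?_⟩
  apply pr_pow_eq_zero hf
  have := map_stp ((Mrep (d := d) f).toRingHom)
    (Module.finrank F[X] (Matrix (Idx d) (Idx d) F[X]) + 1) v
  have h2 := stp_eq_zero (K := F[X]) (A := Matrix (Idx d) (Idx d) F[X])
    (Module.finrank F[X] (Matrix (Idx d) (Idx d) F[X]) + 1) (Nat.lt_succ_self _)
    (fun i => (Mrep (d := d) f).toRingHom (v i))
  rw [h2] at this
  exact this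

end Pool.EngelNI
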