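import Mathlib

/-!
A unipotent unit `1 + X` with `X ^ 2 = 0` such that `X * (h⁻¹ X h)` is nilpotent has
`[h, a, ..., a] = 1`.
-/

set_option autoImplicit false

namespace Pool.EngelNI

section words

variable {R : Type*} [Ring R]

/-- additive span of the products of at least `n` letters from `{X, Y}` -/
def Sn (X Y : R) (n : ℕ) : AddSubgroup R :=
  AddSubgroup.closure {r | ∃ l : List R, (∀ x ∈ l, x = X ∨ x = Y) ∧ n ≤ l.length ∧ l.prod = r}

theorem Sn_mul {X Y : R} {m n : ℕ} {a b : R} (ha : a ∈ Sn X Y m) (hb : b ∈ Sn X Y n) :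
    a * b ∈ Sn X Y (m + n) := by
  refine AddSubgroup.closure_induction (p := fun a _ => a * b ∈ Sn X Y (m + n)) ?_ ?_ ?_ ?_ ha
  · rintro _ ⟨l, hl, hlm, rfl⟩
    refine AddSubgroup.closure_induction
      (p := fun b _ => l.prod * b ∈ Sn X Y (m + n)) ?_ ?_ ?_ ?_ hb
    · rintro _ ⟨l', hl', hlm', rfl⟩
      refine AddSubgroup.subset_closure ⟨l ++ l', ?_, ?_, ?_⟩
      · intro x hx
        rcases List.mem_append.mp hx with h | h
        · exact hl x h
        · exact hl' x h
      · rw [List.length_append]; omega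
      · rw [List.prod_append]
    · rw [mul_zero]; exact zero_mem _
    · intro x y _ _ h1 h2
      rw [mul_add]; exact add_mem h1 h2
    · intro x _ h1
      rw [mul_neg]; exact neg_mem h1
  · rw [zero_mul]; exact zero_mem _
  · intro x y _ _ h1 h2
    rw [add_mul]; exact add_mem h1 h2
  · intro x _ h1
    rw [neg_mul]; exact neg_mem h1

theorem Sn_anti {X Y : R} {m n : ℕ} (h : m ≤ n) : Sn X Y n ≤ Sn X Y m := by
  apply AddSubgroup.closure_mono
  rintro r ⟨l, h1, h2, h3⟩
  exact ⟨l, h1, h.trans h2, h3⟩

theorem one_mem_Sn (X Y : R) : (1 : R) ∈ Sn X Y 0 :=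
  AddSubgroup.subset_closure ⟨[], by simp, by simp, by simp⟩

theorem left_mem_Sn (X Y : R) : X ∈ Sn X Y 1 :=
  AddSubgroup.subset_closure ⟨[X], by simp, by simp, by simp⟩

theorem right_mem_Sn (X Y : R) : Y ∈ Sn X Y 1 :=
  AddSubgroup.subset_closure ⟨[Y], by simp, by simp, by simp⟩

theorem list_XY {X Y : R} (hX : X * X = 0) (hY : Y * Y = 0) (m : ℕ) :
    ∀ l : List R, (∀ x ∈ l, x = X ∨ x = Y) → 2 * m ≤ (X :: l).length →
      (X :: l).prod = 0 ∨ ∃ r, (X :: l).prod = (X * Y) ^ m * r := by
  induction m with
  | zero => intro l _ _; right; exact ⟨_, by rw [pow_zero, one_mul]⟩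
  | succ m ih =>
    intro l hl hlen
    cases l with
    | nil => simp at hlen; omega
    | cons z l =>
      rcases hl z (by simp) with rfl | rfl
      · left
        rw [List.prod_cons, List.prod_cons, ← mul_assoc, hX, zero_mul]
      · cases l with
        | nil =>
          simp only [List.length_cons, List.length_nil] at hlen
          have : m = 0 := by omega
          subst this
          right
          exact ⟨1, by simp⟩
        | cons y l =>
          rcases hl y (by simp) with rfl | rfl
          · rcases ih l (fun x hx => hl x (by simp [hx])) (by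
              simp only [List.length_cons] at hlen ⊢; omega) with h | ⟨r, hr⟩
            · left
              rw [List.prod_cons, List.prod_cons, h, mul_zero, mul_zero]
            · right
              refine ⟨r, ?_⟩
              rw [List.prod_cons, List.prod_cons, hr, pow_succ']
              noncomm_ring
          · left
            rw [List.prod_cons, List.prod_cons, List.prod_cons, ← mul_assoc _ _ l.prod, hY,
              zero_mul, mul_zero]

theorem Sn_eq_bot {X Y : R} (hX : X * X = 0) (hY : Y * Y = 0) {m : ℕ} (hm : (X * Y) ^ m = 0)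
    {r : R} (hr : r ∈ Sn X Y (2 * m + 1)) : r = 0 := by
  have : Sn X Y (2 * m + 1) ≤ ⊥ := by
    rw [Sn, AddSubgroup.closure_le]
    rintro _ ⟨l, hl, hlen, rfl⟩
    simp only [AddSubgroup.coe_bot, Set.mem_singleton_iff]
    have hX' : ∀ l : List R, (∀ x ∈ l, x = X ∨ x = Y) → 2 * m ≤ (X :: l).length →
        (X :: l).prod = 0 := by
      intro l hl hlen
      rcases list_XY hX hY m l hl hlen with h | ⟨r, hr⟩
      · exact h
      · rw [hr, hm, zero_mul]
    cases l with
    | nil => simp at hlen
    | cons z l =>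
      rcases hl z (by simp) with rfl | rfl
      · exact hX' l (fun x hx => hl x (by simp [hx])) (by omega)
      · cases l with
        | nil =>
          simp only [List.length_cons, List.length_nil] at hlen
          have : m = 0 := by omega
          subst this
          rw [pow_zero] at hm
          rw [← mul_one (List.prod _), hm, mul_zero]
        | cons y l =>
          rcases hl y (by simp) with rfl | rfl
          · rw [List.prod_cons, hX' l (fun x hx => hl x (by simp [hx])) (by
              simp only [List.length_cons] at hlen ⊢; omega), mul_zero]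
          · rw [List.prod_cons, List.prod_cons, ← mul_assoc, hY, zero_mul]
  exact this hr

end words

variable {R : Type*} [Ring R]

/-- the commutator map -/
def comm {G : Type*} [Group G] (g : G) (x : G) : G := x⁻¹ * g⁻¹ * x * g

/-- the Engel lemma -/
theorem engel_of_nilpotent {X : R} (hX : X * X = 0) (a h : Rˣ) (ha : (a : R) = 1 + X)
    (hnil : IsNilpotent (X * ((h⁻¹ : Rˣ) * X * h : R))) :
    ∃ k, (comm a)^[k] h = 1 := by
  obtain ⟨m, hm⟩ := hnil
  set Y : R := (h⁻¹ : Rˣ) * X * h with hYdef
  have hY : Y * Y = 0 := by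
    rw [hYdef]
    calc (↑h⁻¹ * X * ↑h : R) * (↑h⁻¹ * X * ↑h) = ↑h⁻¹ * X * (↑h * ↑h⁻¹) * X * ↑h := by
          noncomm_ring
      _ = ↑h⁻¹ * (X * X) * ↑h := by rw [Units.mul_inv]; noncomm_ring
      _ = 0 := by rw [hX]; simp
  have hainv : ((a⁻¹ : Rˣ) : R) = 1 - X := by
    rw [← mul_one ((a⁻¹ : Rˣ) : R)]
    have : (1 : R) = a * (1 - X) := by
      have e : (1 + X) * (1 - X) = 1 - X * X := by noncomm_ring
      rw [ha, e, hX, sub_zero]
    nth_rw 1 [this]
    rw [← mul_assoc, Units.inv_mul, one_mul]
  have ha0 : (a : R) ∈ Sn X Y 0 := by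
    rw [ha]; exact add_mem (one_mem_Sn X Y) (Sn_anti (Nat.zero_le 1) (left_mem_Sn X Y))
  have hai0 : ((a⁻¹ : Rˣ) : R) ∈ Sn X Y 0 := by
    rw [hainv]; exact sub_mem (one_mem_Sn X Y) (Sn_anti (Nat.zero_le 1) (left_mem_Sn X Y))
  have key : ∀ n : ℕ, (((comm a)^[n + 1] h : Rˣ) : R) - 1 ∈ Sn X Y (n + 1) ∧
      ((((comm a)^[n + 1] h)⁻¹ : Rˣ) : R) - 1 ∈ Sn X Y (n + 1) := by
    intro n
    induction n with
    | zero =>
      have e1 : (((comm a)^[0 + 1] h : Rˣ) : R) = (1 - Y) * (1 + X) := by
        simp only [Function.iterate_succ, Function.iterate_zero, Function.comp_apply, id_eq,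
          comm, Units.val_mul, hainv, ha]
        congr 1
        rw [hYdef, mul_sub, sub_mul, mul_one, Units.inv_mul]
      have e2 : ((((comm a)^[0 + 1] h)⁻¹ : Rˣ) : R) = (1 - X) * (1 + Y) := by
        simp only [Function.iterate_succ, Function.iterate_zero, Function.comp_apply, id_eq,
          comm, mul_inv_rev, inv_inv, Units.val_mul, hainv, ha]
        congr 1
        rw [hYdef, ← mul_assoc, mul_add, add_mul, mul_one, Units.inv_mul]
      have hX1 := left_mem_Sn X Y
      have hY1 := right_mem_Sn X Y
      rw [e1, e2]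
      constructor
      · have : (1 - Y) * (1 + X) - 1 = X - Y - Y * X := by noncomm_ring
        rw [this]
        exact sub_mem (sub_mem hX1 hY1) (Sn_anti (by norm_num) (Sn_mul hY1 hX1))
      · have : (1 - X) * (1 + Y) - 1 = Y - X - X * Y := by noncomm_ring
        rw [this]
        exact sub_mem (sub_mem hY1 hX1) (Sn_anti (by norm_num) (Sn_mul hX1 hY1))
    | succ n ih =>
      rw [Function.iterate_succ_apply']
      set c : Rˣ := (comm a)^[n + 1] h with hc
      obtain ⟨h1, h2⟩ := ih
      have hc0 : (c : R) ∈ Sn X Y 0 := by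
        have := add_mem (Sn_anti (Nat.zero_le _) h1) (one_mem_Sn X Y)
        simpa using this
      have hci0 : ((c⁻¹ : Rˣ) : R) ∈ Sn X Y 0 := by
        have := add_mem (Sn_anti (Nat.zero_le _) h2) (one_mem_Sn X Y)
        simpa using this
      have hcomm : (c : R) * a - a * c ∈ Sn X Y (n + 1 + 1) := by
        have e : (c : R) * a - a * c = ((c : R) - 1) * X - X * ((c : R) - 1) := by
          rw [ha]; noncomm_ring
        rw [e]
        refine sub_mem (Sn_mul h1 (left_mem_Sn X Y)) ?_
        have := Sn_mul (left_mem_Sn X Y) h1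
        rwa [add_comm] at this
      constructor
      · have e : ((comm a c : Rˣ) : R) - 1 =
            ((c⁻¹ : Rˣ) : R) * ((a⁻¹ : Rˣ) : R) * ((c : R) * a - a * c) := by
          simp only [comm, Units.val_mul]
          rw [mul_sub]
          congr 1
          · noncomm_ring
          · rw [mul_assoc, ← mul_assoc ((a⁻¹ : Rˣ) : R), Units.inv_mul, one_mul, Units.inv_mul]
        rw [e]
        have := Sn_mul (Sn_mul hci0 hai0) hcomm
        simpa using this
      · have e : (((comm a c)⁻¹ : Rˣ) : R) - 1 =
            -(((a⁻¹ : Rˣ) : R) * ((c⁻¹ : Rˣ) : R) * ((c : R) * a - a * c)) := by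
          simp only [comm, mul_inv_rev, inv_inv, Units.val_mul]
          rw [mul_sub, neg_sub]
          congr 1
          · noncomm_ring
          · rw [mul_assoc, ← mul_assoc ((c⁻¹ : Rˣ) : R), Units.inv_mul, one_mul, Units.inv_mul]
        rw [e]
        have := Sn_mul (Sn_mul hai0 hci0) hcomm
        exact neg_mem (by simpa using this)
  refine ⟨2 * m + 1, ?_⟩
  have := Sn_eq_bot hX hY hm (key (2 * m)).1
  exact Units.ext (sub_eq_zero.mp this)

end Pool.EngelNI
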