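import Mathlib
import Pool.Agent.EngelNI.Engel

/-!
From a nil filtered ring of characteristic three with a non-terminating Fibonacci commutator
sequence to a group without involutions whose Engel elements do not form a subgroup.
-/

set_option autoImplicit false

namespace Pool.EngelNI

/-- the hypotheses on a filtered ring -/
structure Filt (Q : Type*) [Ring Q] (I : ℕ → AddSubgroup Q) : Prop where
  zero : ∀ x, x ∈ I 0
  mul : ∀ {m n x y}, x ∈ I m → y ∈ I n → x * y ∈ I (m + n)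
  anti : ∀ {m n x}, m ≤ n → x ∈ I n → x ∈ I m
  inf : ∀ x, (∀ m, x ∈ I m) → x = 0
  nil : ∀ {x}, x ∈ I 1 → IsNilpotent x
  three : (3 : Q) = 0

section leading

variable {Q : Type*} [Ring Q] {I : ℕ → AddSubgroup Q} (hI : Filt Q I)

include hI

theorem Filt.mulL {m : ℕ} {x : Q} (y : Q) (hx : x ∈ I m) : y * x ∈ I m := by
  have := hI.mul (hI.zero y) hx
  rwa [zero_add] at this

theorem Filt.mulR {m : ℕ} {x : Q} (y : Q) (hx : x ∈ I m) : x * y ∈ I m := by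
  have := hI.mul hx (hI.zero y)
  rwa [add_zero] at this

theorem Filt.inv_sub {m : ℕ} (c : Qˣ) (h : (c : Q) - 1 ∈ I m) : ((c⁻¹ : Qˣ) : Q) - 1 ∈ I m := by
  have e : ((c⁻¹ : Qˣ) : Q) - 1 = -(((c⁻¹ : Qˣ) : Q) * ((c : Q) - 1)) := by
    rw [mul_sub, Units.inv_mul, mul_one, neg_sub]
  rw [e]
  exact neg_mem (hI.mulL _ h)

theorem Filt.prod_sub_one {m : ℕ} (c c' : Qˣ) (h : (c : Q) - 1 ∈ I m) (h' : (c' : Q) - 1 ∈ I m) :
    ((c * c' : Qˣ) : Q) - 1 ∈ I m := by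
  have e : ((c * c' : Qˣ) : Q) - 1 = ((c : Q) - 1) * c' + ((c' : Q) - 1) := by
    rw [Units.val_mul]; noncomm_ring
  rw [e]
  exact add_mem (hI.mulR _ h) h'

/-- one step of the recursion -/
theorem Filt.step {d d' : ℕ} (hd : 1 ≤ d) (hd' : 1 ≤ d') (h1 : d' + 1 ≤ 2 * d)
    (h2 : d + 1 ≤ 2 * d') {c c' : Qˣ} {v v' : Q}
    (hv : v ∈ I d) (hv' : v' ∈ I d')
    (hc : (c : Q) - 1 - v ∈ I (d + 1)) (hc' : (c' : Q) - 1 - v' ∈ I (d' + 1)) :
    (((c * c * c' * c * c' * c')⁻¹ : Qˣ) : Q) - 1 - (v * v' - v' * v) ∈ I (d + d' + 1) := by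
  set x : Q := (c : Q) - 1 with hx
  set x' : Q := (c' : Q) - 1 with hx'
  have hxd : x ∈ I d := by
    have := add_mem (hI.anti (Nat.le_succ d) hc) hv
    simpa using this
  have hxd' : x' ∈ I d' := by
    have := add_mem (hI.anti (Nat.le_succ d') hc') hv'
    simpa using this
  have hcx : (c : Q) = 1 + x := by rw [hx]; abel
  have hcx' : (c' : Q) = 1 + x' := by rw [hx']; abel
  -- inverses
  have hci : ((c⁻¹ : Qˣ) : Q) - 1 ∈ I 1 := hI.anti hd (hI.inv_sub c hxd)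
  have hci' : ((c'⁻¹ : Qˣ) : Q) - 1 ∈ I 1 := hI.anti hd' (hI.inv_sub c' hxd')
  -- cubes
  have three : ∀ y : Q, 3 * y = 0 := fun y => by rw [hI.three, zero_mul]
  have cube : ∀ y : Q, (1 + y) * (1 + y) * (1 + y) = 1 + y * y * y := by
    intro y
    have e : (1 + y) * (1 + y) * (1 + y) = 1 + y * y * y + 3 * y + 3 * (y * y) := by
      noncomm_ring
    rw [e, three, three, add_zero, add_zero]
  set K : Q := ((c⁻¹ : Qˣ) : Q) * (x' * x - x * x') * ((c'⁻¹ : Qˣ) : Q) with hK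
  -- the commutator
  have hcomm : ((c⁻¹ : Qˣ) : Q) * c' * c * ((c'⁻¹ : Qˣ) : Q) = 1 + K := by
    have e : x' * x - x * x' = (c' : Q) * c - c * c' := by
      rw [hcx, hcx']; noncomm_ring
    rw [hK, e, mul_sub, sub_mul]
    have e2 : ((c⁻¹ : Qˣ) : Q) * (c * c') * ((c'⁻¹ : Qˣ) : Q) = 1 := by
      rw [← mul_assoc ((c⁻¹ : Qˣ) : Q), Units.inv_mul, one_mul, Units.mul_inv]
    rw [e2]
    noncomm_ring
  set Z : Qˣ := c * c * c' * c * c' * c' with hZ
  have hZ1 : (Z : Q) = (1 + x * x * x) * (1 + K) * (1 + x' * x' * x') := by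
    rw [← cube x, ← cube x', ← hcx, ← hcx', ← hcomm, hZ]
    simp only [Units.val_mul]
    have e1 : (c : Q) * c * c * (((c⁻¹ : Qˣ) : Q) * c' * c * ((c'⁻¹ : Qˣ) : Q)) *
        ((c' : Q) * c' * c') = c * c * (c * ((c⁻¹ : Qˣ) : Q)) * c' * c *
        (((c'⁻¹ : Qˣ) : Q) * c') * c' * c' := by noncomm_ring
    rw [e1, Units.mul_inv, Units.inv_mul]
    noncomm_ring
  -- estimates
  have hcube : x * x * x ∈ I (d + d' + 1) :=
    hI.anti (by omega) (hI.mul (hI.mul hxd hxd) hxd)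
  have hcube' : x' * x' * x' ∈ I (d + d' + 1) :=
    hI.anti (by omega) (hI.mul (hI.mul hxd' hxd') hxd')
  have hw : x' * x - x * x' ∈ I (d + d') :=
    sub_mem (by have := hI.mul hxd' hxd; rwa [add_comm] at this) (hI.mul hxd hxd')
  have hK1 : K - (x' * x - x * x') ∈ I (d + d' + 1) := by
    have e : K - (x' * x - x * x') =
        (((c⁻¹ : Qˣ) : Q) - 1) * (x' * x - x * x') * ((c'⁻¹ : Qˣ) : Q) +
        (x' * x - x * x') * (((c'⁻¹ : Qˣ) : Q) - 1) := by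
      rw [hK]; noncomm_ring
    rw [e]
    refine add_mem (hI.mulR _ ?_) ?_
    · have := hI.mul hci hw
      rwa [add_comm] at this
    · exact hI.mul hw hci'
  have hvv : (x' * x - x * x') - (v' * v - v * v') ∈ I (d + d' + 1) := by
    have e : (x' * x - x * x') - (v' * v - v * v') =
        ((x' - v') * x + v' * (x - v)) - ((x - v) * x' + v * (x' - v')) := by noncomm_ring
    rw [e]
    refine sub_mem (add_mem ?_ ?_) (add_mem ?_ ?_)
    · exact hI.anti (by omega) (hI.mul hc' hxd)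
    · exact hI.anti (by omega) (hI.mul hv' hc)
    · exact hI.anti (by omega) (hI.mul hc hxd')
    · exact hI.anti (by omega) (hI.mul hv hc')
  have hZ2 : (Z : Q) - 1 - (v' * v - v * v') ∈ I (d + d' + 1) := by
    have e : (Z : Q) - 1 - (v' * v - v * v') =
        (x * x * x) * ((1 + K) * (1 + x' * x' * x')) + (1 + K) * (x' * x' * x') +
        ((K - (x' * x - x * x')) + ((x' * x - x * x') - (v' * v - v * v'))) := by
      rw [hZ1]; noncomm_ring
    rw [e]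
    exact add_mem (add_mem (hI.mulR _ hcube) (hI.mulL _ hcube')) (add_mem hK1 hvv)
  have hvc : v' * v - v * v' ∈ I (d + d') :=
    sub_mem (by have := hI.mul hv' hv; rwa [add_comm] at this) (hI.mul hv hv')
  have hZ3 : (Z : Q) - 1 ∈ I 1 := by
    have := add_mem (hI.anti (by omega : 1 ≤ d + d' + 1) hZ2)
      (hI.anti (by omega : 1 ≤ d + d') hvc)
    simpa using this
  have hZi : ((Z⁻¹ : Qˣ) : Q) - 1 ∈ I 1 := hI.inv_sub Z hZ3
  have e : ((Z⁻¹ : Qˣ) : Q) - 1 - (v * v' - v' * v) =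
      -((((Z⁻¹ : Qˣ) : Q) - 1) * (v' * v - v * v')) -
      ((Z⁻¹ : Qˣ) : Q) * ((Z : Q) - 1 - (v' * v - v * v')) := by
    have : ((Z⁻¹ : Qˣ) : Q) * ((Z : Q) - 1 - (v' * v - v * v')) =
        1 - ((Z⁻¹ : Qˣ) : Q) - ((Z⁻¹ : Qˣ) : Q) * (v' * v - v * v') := by
      rw [mul_sub, mul_sub, Units.inv_mul, mul_one]
    rw [this]
    noncomm_ring
  rw [e]
  refine sub_mem (neg_mem ?_) (hI.mulL _ hZ2)
  have := hI.mul hZi hvc
  rwa [add_comm] at this

end leading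

/-! ### the twisted difference map on triples -/

/-- the map `T` -/
def Tm {H : Type*} [Group H] (w : Fin 3 → H) : Fin 3 → H := fun i => (w i)⁻¹ * w (i + 1)

theorem Tm_prod {H : Type*} [Group H] (w : Fin 3 → H) : Tm w 0 * Tm w 1 * Tm w 2 = 1 := by
  simp only [Tm]
  have e1 : (0 : Fin 3) + 1 = 1 := rfl
  have e2 : (1 : Fin 3) + 1 = 2 := rfl
  have e3 : (2 : Fin 3) + 1 = 0 := rfl
  rw [e1, e2, e3]
  group

/-- recursion for the zeroth component -/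
theorem Tm_rec {H : Type*} [Group H] (w : Fin 3 → H) :
    Tm (Tm (Tm w)) 0 = (Tm w 0 * Tm w 0 * Tm (Tm w) 0 * Tm w 0 * Tm (Tm w) 0 *
      Tm (Tm w) 0)⁻¹ := by
  have h := Tm_prod w
  set c := Tm w with hc
  have e1 : Tm c 0 = (c 0)⁻¹ * c 1 := rfl
  have e2 : Tm c 1 = (c 1)⁻¹ * c 2 := rfl
  have e3 : Tm (Tm c) 0 = (Tm c 0)⁻¹ * Tm c 1 := rfl
  have h2 : c 2 = (c 0 * c 1)⁻¹ := by
    rw [eq_inv_iff_mul_eq_one]
    have : c 2 * (c 0 * c 1) = c 2 * (c 0 * c 1 * c 2) * (c 2)⁻¹ := by group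
    rw [this, h]; group
  rw [e3, e1, e2, h2]
  group

/-- the sequence of zeroth components -/
def gam {H : Type*} [Group H] (w : Fin 3 → H) (n : ℕ) : H := (Tm^[n + 1] w) 0

theorem gam_rec {H : Type*} [Group H] (w : Fin 3 → H) (n : ℕ) :
    gam w (n + 2) = (gam w n * gam w n * gam w (n + 1) * gam w n * gam w (n + 1) *
      gam w (n + 1))⁻¹ := by
  simp only [gam]
  rw [Function.iterate_succ_apply' Tm (n + 2), Function.iterate_succ_apply' Tm (n + 1),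
    Function.iterate_succ_apply' Tm n]
  exact Tm_rec _

/-- degrees -/
def dg3 : ℕ → ℕ
  | 0 => 2
  | 1 => 3
  | n + 2 => dg3 n + dg3 (n + 1)

theorem dg3_bounds (n : ℕ) : 1 ≤ dg3 n ∧ 1 ≤ dg3 (n + 1) ∧ dg3 (n + 1) + 1 ≤ 2 * dg3 n ∧
    dg3 n + 1 ≤ 2 * dg3 (n + 1) ∧ dg3 n + 1 ≤ dg3 (n + 1) := by
  induction n with
  | zero => simp [dg3]
  | succ n ih =>
    obtain ⟨h1, h2, h3, h4, h5⟩ := ih
    have e : dg3 (n + 1 + 1) = dg3 n + dg3 (n + 1) := rfl
    omega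

theorem Filt.gam_leading {Q : Type*} [Ring Q] {I : ℕ → AddSubgroup Q} (hI : Filt Q I)
    (v : ℕ → Q) (hrec : ∀ n, v (n + 2) = v n * v (n + 1) - v (n + 1) * v n)
    (hv : ∀ n, v n ∈ I (dg3 n)) (w : Fin 3 → Qˣ)
    (h0 : ((gam w 0 : Qˣ) : Q) - 1 - v 0 ∈ I 3) (h1 : ((gam w 1 : Qˣ) : Q) - 1 - v 1 ∈ I 4) :
    ∀ n, ((gam w n : Qˣ) : Q) - 1 - v n ∈ I (dg3 n + 1) := by
  have key : ∀ n, ((gam w n : Qˣ) : Q) - 1 - v n ∈ I (dg3 n + 1) ∧
      ((gam w (n + 1) : Qˣ) : Q) - 1 - v (n + 1) ∈ I (dg3 (n + 1) + 1) := by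
    intro n
    induction n with
    | zero => exact ⟨h0, h1⟩
    | succ n ih =>
      refine ⟨ih.2, ?_⟩
      obtain ⟨b1, b2, b3, b4, -⟩ := dg3_bounds n
      have := hI.step b1 b2 b3 b4 (hv n) (hv (n + 1)) ih.1 ih.2
      rw [show n + 1 + 1 = n + 2 by ring, gam_rec, hrec]
      exact this
  exact fun n => (key n).1

end Pool.EngelNI
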