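import Mathlib
import Pool.Agent.EngelNI.Group

/-!
The matrix group over a nil filtered ring of characteristic three.
-/

set_option autoImplicit false

namespace Pool.EngelNI

open Matrix

variable {Q : Type} [Ring Q] {I : ℕ → AddSubgroup Q}

/-- upper unitriangular modulo `I₁` -/
def UT (I₁ : AddSubgroup Q) (M : Matrix (Fin 3) (Fin 3) Q) : Prop :=
  (∀ i j, j < i → M i j ∈ I₁) ∧ (∀ i, M i i - 1 ∈ I₁)

/-- all entries in `I₁` -/
def Ent (I₁ : AddSubgroup Q) (M : Matrix (Fin 3) (Fin 3) Q) : Prop := ∀ i j, M i j ∈ I₁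

theorem UT_of_Ent {I₁ : AddSubgroup Q} {M : Matrix (Fin 3) (Fin 3) Q} (h : Ent I₁ (M - 1)) :
    UT I₁ M := by
  constructor
  · intro i j hij
    have := h i j
    rw [Matrix.sub_apply, one_apply_ne hij.ne', sub_zero] at this
    exact this
  · intro i
    have := h i i
    rwa [Matrix.sub_apply, one_apply_eq] at this

theorem UT_one {I₁ : AddSubgroup Q} : UT I₁ (1 : Matrix (Fin 3) (Fin 3) Q) :=
  UT_of_Ent (fun i j => by rw [sub_self]; exact zero_mem _)

section

variable (hI : Filt Q I)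

include hI

theorem Filt.UT_mul {M N : Matrix (Fin 3) (Fin 3) Q} (hM : UT (I 1) M) (hN : UT (I 1) N) :
    UT (I 1) (M * N) := by
  constructor
  · intro i j hij
    rw [mul_apply]
    refine sum_mem fun k _ => ?_
    rcases lt_or_ge k i with hk | hk
    · exact hI.mulR _ (hM.1 i k hk)
    · exact hI.mulL _ (hN.1 k j (lt_of_lt_of_le hij hk))
  · intro i
    rw [mul_apply, ← Finset.add_sum_erase _ _ (Finset.mem_univ i), add_sub_right_comm]
    refine add_mem ?_ (sum_mem fun k hk => ?_)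
    · have e : M i i * N i i - 1 = (M i i - 1) * N i i + (N i i - 1) := by noncomm_ring
      rw [e]
      exact add_mem (hI.mulR _ (hM.2 i)) (hN.2 i)
    · rcases lt_or_gt_of_ne (Finset.ne_of_mem_erase hk) with hk' | hk'
      · exact hI.mulR _ (hM.1 i k hk')
      · exact hI.mulL _ (hN.1 k i hk')

theorem Filt.Ent_mulL {M N : Matrix (Fin 3) (Fin 3) Q} (hN : Ent (I 1) N) :
    Ent (I 1) (M * N) := by
  intro i j
  rw [mul_apply]
  exact sum_mem fun k _ => hI.mulL _ (hN k j)

theorem Filt.Ent_mulR {M N : Matrix (Fin 3) (Fin 3) Q} (hM : Ent (I 1) M) :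
    Ent (I 1) (M * N) := by
  intro i j
  rw [mul_apply]
  exact sum_mem fun k _ => hI.mulR _ (hM i k)

theorem Filt.three_mul (x : Q) : 3 * x = 0 := by rw [hI.three, zero_mul]

/-- the only matrix in the group squaring to one is one -/
theorem Filt.eq_one_of_sq {M : Matrix (Fin 3) (Fin 3) Q} (hM : UT (I 1) M) (h : M * M = 1) :
    M = 1 := by
  have e01 := congrFun (congrFun h 0) 1
  have e12 := congrFun (congrFun h 1) 2
  have e02 := congrFun (congrFun h 0) 2
  simp only [mul_apply, Fin.sum_univ_three] at e01 e12 e02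
  rw [one_apply_ne (by decide)] at e01 e12 e02
  have h10 := hM.1 1 0 (by decide)
  have h20 := hM.1 2 0 (by decide)
  have h21 := hM.1 2 1 (by decide)
  have h00 := hM.2 0
  have h11 := hM.2 1
  have h22 := hM.2 2
  have h01 : M 0 1 ∈ I 1 := by
    have e : M 0 1 = (M 0 0 - 1) * M 0 1 + M 0 1 * (M 1 1 - 1) + M 0 2 * M 2 1 -
        (M 0 0 * M 0 1 + M 0 1 * M 1 1 + M 0 2 * M 2 1) + 3 * M 0 1 := by noncomm_ring
    rw [e, e01, hI.three_mul, sub_zero, add_zero]
    exact add_mem (add_mem (hI.mulR _ h00) (hI.mulL _ h11)) (hI.mulL _ h21)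
  have h12 : M 1 2 ∈ I 1 := by
    have e : M 1 2 = M 1 0 * M 0 2 + (M 1 1 - 1) * M 1 2 + M 1 2 * (M 2 2 - 1) -
        (M 1 0 * M 0 2 + M 1 1 * M 1 2 + M 1 2 * M 2 2) + 3 * M 1 2 := by noncomm_ring
    rw [e, e12, hI.three_mul, sub_zero, add_zero]
    exact add_mem (add_mem (hI.mulR _ h10) (hI.mulR _ h11)) (hI.mulL _ h22)
  have h02 : M 0 2 ∈ I 1 := by
    have e : M 0 2 = (M 0 0 - 1) * M 0 2 + M 0 1 * M 1 2 + M 0 2 * (M 2 2 - 1) -
        (M 0 0 * M 0 2 + M 0 1 * M 1 2 + M 0 2 * M 2 2) + 3 * M 0 2 := by noncomm_ring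
    rw [e, e02, hI.three_mul, sub_zero, add_zero]
    exact add_mem (add_mem (hI.mulR _ h00) (hI.mulL _ h12)) (hI.mulL _ h22)
  set n := M - 1 with hn
  have hn1 : Ent (I 1) n := by
    intro i j
    rw [hn]
    fin_cases i <;> fin_cases j <;> simp_all [Matrix.sub_apply]
  have h3 : (3 : Matrix (Fin 3) (Fin 3) Q) * n = 0 := by
    have e : (3 : Matrix (Fin 3) (Fin 3) Q) * n = n + n + n := by noncomm_ring
    rw [e]
    ext i j
    have := hI.three_mul (n i j)
    rw [Matrix.add_apply, Matrix.add_apply, Matrix.zero_apply, ← this]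
    noncomm_ring
  have hnn : n = n * n := by
    have e : n * n = M * M - 1 - 3 * n + n := by rw [hn]; noncomm_ring
    rw [e, h, h3]; abel
  have hall : ∀ m i j, n i j ∈ I (m + 1) := by
    intro m
    induction m with
    | zero => exact fun i j => hn1 i j
    | succ m ih =>
      intro i j
      rw [hnn, mul_apply]
      exact sum_mem fun k _ => hI.mul (ih i k) (hn1 k j)
  have hn0 : n = 0 := by
    ext i j
    rw [Matrix.zero_apply]
    refine hI.inf _ fun m => ?_
    exact hI.anti (Nat.le_succ m) (hall m i j)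
  exact sub_eq_zero.mp hn0

end

/-- the group -/
def GG (hI : Filt Q I) : Subgroup (Matrix (Fin 3) (Fin 3) Q)ˣ where
  carrier := {g | UT (I 1) (g : Matrix (Fin 3) (Fin 3) Q) ∧
    UT (I 1) ((g⁻¹ : (Matrix (Fin 3) (Fin 3) Q)ˣ) : Matrix (Fin 3) (Fin 3) Q)}
  mul_mem' {a b} ha hb := by
    refine ⟨?_, ?_⟩
    · rw [Units.val_mul]; exact hI.UT_mul ha.1 hb.1
    · rw [_root_.mul_inv_rev, Units.val_mul]; exact hI.UT_mul hb.2 ha.2
  one_mem' := ⟨UT_one, by rw [inv_one]; exact UT_one⟩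
  inv_mem' {a} ha := ⟨ha.2, by rw [inv_inv]; exact ha.1⟩

theorem GG_no_involution (hI : Filt Q I) (g : GG hI) : orderOf g ≠ 2 := by
  intro h
  have h2 : g ^ 2 = 1 := by rw [← h]; exact pow_orderOf_eq_one g
  have h3 : ((g : (Matrix (Fin 3) (Fin 3) Q)ˣ) : Matrix (Fin 3) (Fin 3) Q) *
      ((g : (Matrix (Fin 3) (Fin 3) Q)ˣ) : Matrix (Fin 3) (Fin 3) Q) = 1 := by
    rw [← Units.val_mul, ← Subgroup.coe_mul, ← sq, h2]
    rfl
  have h4 := hI.eq_one_of_sq g.2.1 h3
  have h5 : g = 1 := Subtype.ext (Units.ext h4)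
  rw [h5, orderOf_one] at h
  omega

/-- elementary transvections -/
def tr (i j : Fin 3) (hij : i ≠ j) : (Matrix (Fin 3) (Fin 3) Q)ˣ where
  val := 1 + single i j 1
  inv := 1 - single i j 1
  val_inv := by
    have e : (1 + single i j (1 : Q)) * (1 - single i j (1 : Q)) =
        1 - single i j (1 : Q) * single i j (1 : Q) := by noncomm_ring
    rw [e, single_mul_single_of_ne _ _ _ _ hij.symm, sub_zero]
  inv_val := by
    have e : (1 - single i j (1 : Q)) * (1 + single i j (1 : Q)) =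
        1 - single i j (1 : Q) * single i j (1 : Q) := by noncomm_ring
    rw [e, single_mul_single_of_ne _ _ _ _ hij.symm, sub_zero]

theorem tr_mem (hI : Filt Q I) {i j : Fin 3} (hij : i < j) : tr i j hij.ne ∈ GG hI := by
  have key : ∀ c : Q, UT (I 1) (1 + single i j c) := by
    intro c
    constructor
    · intro k l hkl
      rw [Matrix.add_apply, one_apply_ne hkl.ne', zero_add, single_apply_of_ne]
      · exact zero_mem _
      · rintro ⟨rfl, rfl⟩
        exact absurd hij hkl.not_gt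
    · intro k
      rw [Matrix.add_apply, one_apply_eq, add_sub_cancel_left, single_apply_of_ne]
      · exact zero_mem _
      · rintro ⟨rfl, rfl⟩
        exact absurd hij (lt_irrefl _)
  refine ⟨key 1, ?_⟩
  have e : (((tr i j hij.ne : (Matrix (Fin 3) (Fin 3) Q)ˣ)⁻¹ : (Matrix (Fin 3) (Fin 3) Q)ˣ) :
      Matrix (Fin 3) (Fin 3) Q) = 1 + single i j (-1) := by
    change 1 - single i j (1 : Q) = 1 + single i j (-1)
    rw [sub_eq_add_neg, ← single_neg]
  rw [e]
  exact key (-1)

/-- the transvections are Engel -/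
theorem tr_engel (hI : Filt Q I) {i j : Fin 3} (hij : i < j)
    (h : (Matrix (Fin 3) (Fin 3) Q)ˣ) (hh : h ∈ GG hI) :
    ∃ k, (comm (tr i j hij.ne))^[k] h = 1 := by
  have hX : single i j (1 : Q) * single i j (1 : Q) = 0 :=
    single_mul_single_of_ne _ _ _ _ hij.ne' _
  refine engel_of_nilpotent hX _ h rfl ?_
  set α : Q := ((h⁻¹ : (Matrix (Fin 3) (Fin 3) Q)ˣ) : Matrix (Fin 3) (Fin 3) Q) j i with hα
  set β : Q := (h : Matrix (Fin 3) (Fin 3) Q) j i with hβ
  have hα1 : α ∈ I 1 := hh.2.1 j i hij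
  obtain ⟨m, hm⟩ := hI.nil (hI.mulR β hα1)
  have key : ∀ k : ℕ, (single i j (1 : Q) * ((h⁻¹ : (Matrix (Fin 3) (Fin 3) Q)ˣ) *
      single i j (1 : Q) * h)) ^ (k + 1) = single i j ((α * β) ^ k * α) * h := by
    have base : single i j (1 : Q) * ((h⁻¹ : (Matrix (Fin 3) (Fin 3) Q)ˣ) *
        single i j (1 : Q) * h) = single i j α * h := by
      rw [← mul_assoc, ← mul_assoc, single_mul_mul_single, one_mul, mul_one]
    intro k
    induction k with
    | zero => rw [zero_add, pow_one, base, pow_zero, one_mul]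
    | succ k ih =>
      rw [pow_succ, ih, base]
      rw [← mul_assoc, single_mul_mul_single, pow_succ]
      simp only [mul_assoc]
      rfl
  exact ⟨m + 1, by rw [key, hm, zero_mul, single_zero, zero_mul]⟩

end Pool.EngelNI
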