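import Mathlib
import Pool.Agent.EngelNI.Matrix

/-!
The product of the two Engel transvections is not Engel.
-/

set_option autoImplicit false

namespace Pool.EngelNI

open Matrix

variable {Q : Type} [Ring Q] {I : ℕ → AddSubgroup Q}

/-- permutation matrix -/
def Cp : (Matrix (Fin 3) (Fin 3) Q)ˣ where
  val := !![0, 0, 1; 1, 0, 0; 0, 1, 0]
  inv := !![0, 1, 0; 0, 0, 1; 1, 0, 0]
  val_inv := by
    ext i j
    fin_cases i <;> fin_cases j <;> simp [Matrix.mul_apply, Fin.sum_univ_three]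
  inv_val := by
    ext i j
    fin_cases i <;> fin_cases j <;> simp [Matrix.mul_apply, Fin.sum_univ_three]

/-- base change matrix -/
def Pm (h3 : (3 : Q) = 0) : (Matrix (Fin 3) (Fin 3) Q)ˣ where
  val := !![1, 0, 0; 1, -1, 0; 1, 1, 1]
  inv := !![1, 0, 0; 1, -1, 0; 1, 1, 1]
  val_inv := by
    have h3' : (1 : Q) + 1 + 1 = 0 := by rw [← h3]; norm_num
    ext i j
    fin_cases i <;> fin_cases j <;>
      simp [Matrix.mul_apply, Fin.sum_univ_three, h3']
  inv_val := by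
    have h3' : (1 : Q) + 1 + 1 = 0 := by rw [← h3]; norm_num
    ext i j
    fin_cases i <;> fin_cases j <;>
      simp [Matrix.mul_apply, Fin.sum_univ_three, h3']

/-- diagonal units -/
def dgU (w : Fin 3 → Qˣ) : (Matrix (Fin 3) (Fin 3) Q)ˣ where
  val := diagonal (fun i => (w i : Q))
  inv := diagonal (fun i => ((w i)⁻¹ : Qˣ))
  val_inv := by
    rw [diagonal_mul_diagonal]
    simp
  inv_val := by
    rw [diagonal_mul_diagonal]
    simp

theorem dgU_injective : Function.Injective (dgU (Q := Q)) := by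
  intro w w' h
  funext i
  have := congrArg (fun u : (Matrix (Fin 3) (Fin 3) Q)ˣ =>
    (u : Matrix (Fin 3) (Fin 3) Q) i i) h
  simp only [dgU, diagonal_apply_eq] at this
  exact Units.ext this

theorem dgU_one : dgU (1 : Fin 3 → Qˣ) = 1 := by
  apply Units.ext
  simp [dgU]

theorem comm_Cp_dgU (w : Fin 3 → Qˣ) : comm Cp (dgU w) = dgU (Tm w) := by
  apply Units.ext
  simp only [comm, Units.val_mul]
  have e1 : (((dgU w)⁻¹ : (Matrix (Fin 3) (Fin 3) Q)ˣ) : Matrix (Fin 3) (Fin 3) Q) =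
      diagonal (fun i => (((w i)⁻¹ : Qˣ) : Q)) := rfl
  have e2 : ((Cp⁻¹ : (Matrix (Fin 3) (Fin 3) Q)ˣ) : Matrix (Fin 3) (Fin 3) Q) =
      !![0, 1, 0; 0, 0, 1; 1, 0, 0] := rfl
  have e3 : ((Cp : (Matrix (Fin 3) (Fin 3) Q)ˣ) : Matrix (Fin 3) (Fin 3) Q) =
      !![0, 0, 1; 1, 0, 0; 0, 1, 0] := rfl
  have e4 : ((dgU w : (Matrix (Fin 3) (Fin 3) Q)ˣ) : Matrix (Fin 3) (Fin 3) Q) =
      diagonal (fun i => ((w i : Qˣ) : Q)) := rfl
  have e5 : ((dgU (Tm w) : (Matrix (Fin 3) (Fin 3) Q)ˣ) : Matrix (Fin 3) (Fin 3) Q) =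
      diagonal (fun i => (((w i)⁻¹ : Qˣ) : Q) * (w (i + 1) : Q)) := by
    change diagonal (fun i => ((Tm w i : Qˣ) : Q)) = _
    simp [Tm]
  rw [e1, e2, e3, e4, e5]
  ext i j
  have a1 : (0 : Fin 3) + 1 = 1 := rfl
  have a2 : (1 : Fin 3) + 1 = 2 := rfl
  have a3 : (2 : Fin 3) + 1 = 0 := rfl
  fin_cases i <;> fin_cases j <;>
    simp [Matrix.mul_apply, Fin.sum_univ_three, diagonal_apply, a1, a2, a3]

theorem iterate_comm_Cp (w : Fin 3 → Qˣ) (k : ℕ) :
    (comm Cp)^[k] (dgU w) = dgU (Tm^[k] w) := by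
  induction k with
  | zero => rfl
  | succ k ih => rw [Function.iterate_succ_apply', ih, comm_Cp_dgU, Function.iterate_succ_apply']

theorem Pm_conj (h3 : (3 : Q) = 0) :
    (tr 0 1 (by decide) * tr 1 2 (by decide) : (Matrix (Fin 3) (Fin 3) Q)ˣ) =
      (Pm h3)⁻¹ * Cp * Pm h3 := by
  have h3' : (1 : Q) + 1 + 1 = 0 := by rw [← h3]; norm_num
  have key : Pm h3 * (tr 0 1 (by decide) * tr 1 2 (by decide)) = Cp * Pm h3 := by
    apply Units.ext
    simp only [Units.val_mul]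
    have e1 : ((tr 0 1 (by decide) : (Matrix (Fin 3) (Fin 3) Q)ˣ) : Matrix (Fin 3) (Fin 3) Q) =
        !![1, 1, 0; 0, 1, 0; 0, 0, 1] := by
      change 1 + single 0 1 (1 : Q) = _
      ext i j
      fin_cases i <;> fin_cases j <;> simp [Matrix.add_apply]
    have e2 : ((tr 1 2 (by decide) : (Matrix (Fin 3) (Fin 3) Q)ˣ) : Matrix (Fin 3) (Fin 3) Q) =
        !![1, 0, 0; 0, 1, 1; 0, 0, 1] := by
      change 1 + single 1 2 (1 : Q) = _
      ext i j
      fin_cases i <;> fin_cases j <;> simp [Matrix.add_apply]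
    have e3 : ((Cp : (Matrix (Fin 3) (Fin 3) Q)ˣ) : Matrix (Fin 3) (Fin 3) Q) =
        !![0, 0, 1; 1, 0, 0; 0, 1, 0] := rfl
    have e4 : ((Pm h3 : (Matrix (Fin 3) (Fin 3) Q)ˣ) : Matrix (Fin 3) (Fin 3) Q) =
        !![1, 0, 0; 1, -1, 0; 1, 1, 1] := rfl
    have h2' : (1 : Q) + 1 = -1 := eq_neg_of_add_eq_zero_left h3'
    rw [e1, e2, e3, e4]
    ext i j
    fin_cases i <;> fin_cases j <;>
      simp [Matrix.mul_apply, Fin.sum_univ_three, h2']
  rw [mul_assoc, ← key, inv_mul_cancel_left]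

theorem comm_conj {G : Type*} [Group G] (p c x : G) :
    comm (p⁻¹ * c * p) (p⁻¹ * x * p) = p⁻¹ * comm c x * p := by
  simp only [comm]; group

theorem iterate_comm_conj {G : Type*} [Group G] (p c x : G) (k : ℕ) :
    (comm (p⁻¹ * c * p))^[k] (p⁻¹ * x * p) = p⁻¹ * (comm c)^[k] x * p := by
  induction k with
  | zero => rfl
  | succ k ih => rw [Function.iterate_succ_apply', ih, comm_conj, Function.iterate_succ_apply']

/-- the main group theoretic reduction -/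
theorem main_reduction (hI : Filt Q I) (v : ℕ → Q)
    (hrec : ∀ n, v (n + 2) = v n * v (n + 1) - v (n + 1) * v n)
    (hv : ∀ n, v n ∈ I (dg3 n)) (hne : ∀ n, v (2 * n) ∉ I (dg3 (2 * n) + 1)) :
    ∃ (G : Type) (_ : Group G), (∀ x : G, orderOf x ≠ 2) ∧
      ¬ ∃ H : Subgroup G, ∀ g : G,
        g ∈ H ↔ ∀ h : G, ∃ k : ℕ, (fun x : G => x⁻¹ * g⁻¹ * x * g)^[k] h = 1 := by
  refine ⟨GG hI, inferInstance, GG_no_involution hI, ?_⟩
  rintro ⟨H, hH⟩
  -- iterates in the subgroup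
  have hcoe : ∀ (g h : GG hI) (k : ℕ),
      ((((fun x : GG hI => x⁻¹ * g⁻¹ * x * g)^[k] h : GG hI)) : (Matrix (Fin 3) (Fin 3) Q)ˣ) =
      (comm (g : (Matrix (Fin 3) (Fin 3) Q)ˣ))^[k] h := by
    intro g h k
    induction k with
    | zero => rfl
    | succ k ih =>
      rw [Function.iterate_succ_apply', Function.iterate_succ_apply', ← ih]
      simp [comm]
  -- Engel transvections
  have hEn : ∀ {i j : Fin 3} (hij : i < j), (⟨tr i j hij.ne, tr_mem hI hij⟩ : GG hI) ∈ H := by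
    intro i j hij
    rw [hH]
    intro h
    obtain ⟨k, hk⟩ := tr_engel hI hij h.1 h.2
    exact ⟨k, Subtype.ext (by rw [hcoe]; exact hk)⟩
  have hprod := H.mul_mem (hEn (i := 0) (j := 1) (by decide)) (hEn (i := 1) (j := 2) (by decide))
  rw [hH] at hprod
  -- the units
  obtain ⟨p, hp⟩ : ∃ p : Qˣ, (p : Q) = 1 + v 0 := by
    have h1 : IsNilpotent (v 0) := hI.nil (hI.anti (by norm_num [dg3]) (hv 0))
    obtain ⟨u, hu⟩ := h1.isUnit_one_add
    exact ⟨u, hu⟩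
  obtain ⟨q, hq⟩ : ∃ q : Qˣ, (q : Q) = 1 + v 1 := by
    have h1 : IsNilpotent (v 1) := hI.nil (hI.anti (by norm_num [dg3]) (hv 1))
    obtain ⟨u, hu⟩ := h1.isUnit_one_add
    exact ⟨u, hu⟩
  have hp1 : (p : Q) - 1 ∈ I 1 := by
    rw [hp, add_sub_cancel_left]
    exact hI.anti (by norm_num [dg3]) (hv 0)
  have hq1 : (q : Q) - 1 ∈ I 1 := by
    rw [hq, add_sub_cancel_left]
    exact hI.anti (by norm_num [dg3]) (hv 1)
  set w : Fin 3 → Qˣ := ![p⁻¹, 1, p * q] with hw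
  have hw1 : ∀ i, ((w i : Qˣ) : Q) - 1 ∈ I 1 := by
    intro i
    fin_cases i
    · exact hI.inv_sub p hp1
    · change ((1 : Qˣ) : Q) - 1 ∈ I 1
      rw [Units.val_one, sub_self]; exact zero_mem _
    · exact hI.prod_sub_one p q hp1 hq1
  have hEnt : ∀ u : Fin 3 → Qˣ, (∀ i, ((u i : Qˣ) : Q) - 1 ∈ I 1) →
      Ent (I 1) (((dgU u : (Matrix (Fin 3) (Fin 3) Q)ˣ) : Matrix (Fin 3) (Fin 3) Q) - 1) := by
    intro u hu i j
    change (diagonal (fun i => ((u i : Qˣ) : Q)) - 1 : Matrix (Fin 3) (Fin 3) Q) i j ∈ I 1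
    rw [Matrix.sub_apply]
    by_cases hij : i = j
    · subst hij
      rw [diagonal_apply_eq, one_apply_eq]; exact hu i
    · rw [diagonal_apply_ne _ hij, one_apply_ne hij, sub_zero]; exact zero_mem _
  have hconj : ∀ D : (Matrix (Fin 3) (Fin 3) Q)ˣ,
      Ent (I 1) ((D : Matrix (Fin 3) (Fin 3) Q) - 1) →
      UT (I 1) (((Pm hI.three)⁻¹ * D * Pm hI.three : (Matrix (Fin 3) (Fin 3) Q)ˣ) :
        Matrix (Fin 3) (Fin 3) Q) := by
    intro D hD
    apply UT_of_Ent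
    have e : (((Pm hI.three)⁻¹ * D * Pm hI.three : (Matrix (Fin 3) (Fin 3) Q)ˣ) :
        Matrix (Fin 3) (Fin 3) Q) - 1 =
        (((Pm hI.three)⁻¹ : (Matrix (Fin 3) (Fin 3) Q)ˣ) : Matrix (Fin 3) (Fin 3) Q) *
        ((D : Matrix (Fin 3) (Fin 3) Q) - 1) *
        ((Pm hI.three : (Matrix (Fin 3) (Fin 3) Q)ˣ) : Matrix (Fin 3) (Fin 3) Q) := by
      rw [mul_sub, sub_mul, mul_one, Units.inv_mul, Units.val_mul, Units.val_mul]
    rw [e]
    exact hI.Ent_mulR (hI.Ent_mulL hD)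
  have hdinv : (dgU w)⁻¹ = dgU (fun i => (w i)⁻¹) := by
    apply Units.ext
    rfl
  have hmem : (Pm hI.three)⁻¹ * dgU w * Pm hI.three ∈ GG hI := by
    refine ⟨hconj _ (hEnt w hw1), ?_⟩
    have e : ((Pm hI.three)⁻¹ * dgU w * Pm hI.three)⁻¹ =
        (Pm hI.three)⁻¹ * dgU (fun i => (w i)⁻¹) * Pm hI.three := by
      rw [← hdinv]; group
    rw [e]
    exact hconj _ (hEnt _ (fun i => hI.inv_sub _ (hw1 i)))
  obtain ⟨k, hk⟩ := hprod ⟨_, hmem⟩
  have hk' := congrArg (Subtype.val) hk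
  rw [hcoe] at hk'
  change (comm (tr 0 1 (by decide) * tr 1 2 (by decide)))^[k]
    ((Pm hI.three)⁻¹ * dgU w * Pm hI.three) = 1 at hk'
  rw [Pm_conj hI.three, iterate_comm_conj, iterate_comm_Cp] at hk'
  have hk2 : dgU (Tm^[k] w) = 1 := by
    have : dgU (Tm^[k] w) = Pm hI.three * ((Pm hI.three)⁻¹ * dgU (Tm^[k] w) * Pm hI.three) *
        (Pm hI.three)⁻¹ := by group
    rw [this, hk']; group
  rw [← dgU_one] at hk2
  have hk3 : Tm^[k] w = 1 := dgU_injective hk2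
  -- leading terms
  have hTone : Tm (1 : Fin 3 → Qˣ) = 1 := by
    funext i
    simp [Tm]
  have hg0 : gam w 0 = p := by
    simp [gam, Tm, hw]
  have hg1 : gam w 1 = q := by
    have a1 : (0 : Fin 3) + 1 = 1 := rfl
    have a2 : (1 : Fin 3) + 1 = 2 := rfl
    change Tm (Tm w) 0 = q
    simp only [Tm, a1, a2, hw]
    simp
  have hlead := hI.gam_leading v hrec hv w
    (by rw [hg0, hp, add_sub_cancel_left, sub_self]; exact zero_mem _)
    (by rw [hg1, hq, add_sub_cancel_left, sub_self]; exact zero_mem _)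
  have hgam : ∀ n, k ≤ n + 1 → gam w n = 1 := by
    intro n hn
    obtain ⟨m, hm⟩ := Nat.exists_eq_add_of_le hn
    rw [gam, hm, add_comm k m, Function.iterate_add_apply, hk3]
    have : ∀ m, Tm^[m] (1 : Fin 3 → Qˣ) = 1 := by
      intro m
      induction m with
      | zero => rfl
      | succ m ih => rw [Function.iterate_succ_apply', ih, hTone]
    rw [this]; rfl
  apply hne k
  have h1 := hlead (2 * k)
  rw [hgam (2 * k) (by omega), Units.val_one, sub_self, zero_sub] at h1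
  exact neg_mem_iff.mp h1

end Pool.EngelNI
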