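import Mathlib
import Pool.Agent.EngelNI.Alg

/-!
Construction of the protecting elements `Λ` (thought of as functionals through the pairing).
-/

set_option autoImplicit false

noncomputable section

namespace Pool.EngelNI

variable {F : Type*} [Field F]

/-- homogeneous elements of degree `n` -/
def Hm (F : Type*) [Field F] (n : ℕ) : Submodule F (B F) :=
  Submodule.span F (wd F '' {l | l.length = n})

/-- elements supported in degrees at least `n` -/
def Ge (F : Type*) [Field F] (n : ℕ) : Submodule F (B F) :=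
  Submodule.span F (wd F '' {l | n ≤ l.length})

/-- words larger than `φ` of the same length -/
def Up (F : Type*) [Field F] (φ : List Bool) : Submodule F (B F) :=
  Submodule.span F (wd F '' {u | Lx φ u ∧ u.length = φ.length})

/-- words smaller than `φ` of the same length -/
def Dn (F : Type*) [Field F] (φ : List Bool) : Submodule F (B F) :=
  Submodule.span F (wd F '' {u | Lx u φ ∧ u.length = φ.length})

/-- general multiplication lemma for spans of words -/
theorem span_mul_span_le {S T U : Set (List Bool)} (h : ∀ u ∈ S, ∀ v ∈ T, u ++ v ∈ U) :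
    Submodule.span F (wd F '' S) * Submodule.span F (wd F '' T) ≤
      Submodule.span F (wd F '' U) := by
  rw [Submodule.span_mul_span, Submodule.span_le]
  rintro _ ⟨_, ⟨u, hu, rfl⟩, _, ⟨v, hv, rfl⟩, rfl⟩
  simp only [wd_mul]
  exact Submodule.subset_span ⟨_, h u hu v hv, rfl⟩

theorem wd_mem {S : Set (List Bool)} {u : List Bool} (hu : u ∈ S) :
    wd F u ∈ Submodule.span F (wd F '' S) := Submodule.subset_span ⟨u, hu, rfl⟩

theorem Hm_mul (m n : ℕ) : Hm F m * Hm F n ≤ Hm F (m + n) :=
  span_mul_span_le (fun u hu v hv => by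
    simp only [Set.mem_ofPred_eq, List.length_append] at *; omega)

theorem Ge_mul (m n : ℕ) : Ge F m * Ge F n ≤ Ge F (m + n) :=
  span_mul_span_le (fun u hu v hv => by
    simp only [Set.mem_ofPred_eq, List.length_append] at *; omega)

theorem mul_mem_Hm {m n : ℕ} {a b : B F} (ha : a ∈ Hm F m) (hb : b ∈ Hm F n) :
    a * b ∈ Hm F (m + n) := Hm_mul m n (Submodule.mul_mem_mul ha hb)

theorem mul_mem_Ge {m n : ℕ} {a b : B F} (ha : a ∈ Ge F m) (hb : b ∈ Ge F n) :
    a * b ∈ Ge F (m + n) := Ge_mul m n (Submodule.mul_mem_mul ha hb)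

theorem Ge_zero : Ge F 0 = ⊤ := by
  rw [eq_top_iff, ← (bas F).span_eq]
  refine Submodule.span_mono ?_
  rintro _ ⟨l, rfl⟩
  exact ⟨l, by simp, (bas_apply l).symm⟩

theorem Ge_anti {m n : ℕ} (h : m ≤ n) : Ge F n ≤ Ge F m :=
  Submodule.span_mono (Set.image_mono (fun _ (h' : n ≤ _) => le_trans h h'))

theorem Hm_le_Ge (n : ℕ) : Hm F n ≤ Ge F n :=
  Submodule.span_mono (Set.image_mono (fun _ h => le_of_eq (Eq.symm h)))

theorem Hm_pow (D a : ℕ) : (Hm F D) ^ a ≤ Hm F (a * D) := by
  induction a with
  | zero =>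
    rw [pow_zero, Nat.zero_mul, Submodule.one_le]
    rw [← wd_nil]
    exact wd_mem rfl
  | succ a ih =>
    rw [pow_succ, Nat.succ_mul]
    exact (mul_le_mul' ih le_rfl).trans (Hm_mul _ _)

theorem pow_mem_Ge {m : ℕ} {a : B F} (ha : a ∈ Ge F m) (N : ℕ) : a ^ N ∈ Ge F (N * m) := by
  induction N with
  | zero => rw [Nat.zero_mul, Ge_zero]; trivial
  | succ N ih => rw [pow_succ, Nat.succ_mul]; exact mul_mem_Ge ih ha

theorem Bpl_le_Ge (d : ℕ) : Bpl F d ≤ Ge F 1 :=
  Submodule.span_mono (Set.image_mono (fun _ h => h.1))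

/-- bilinear vanishing from spans of words -/
theorem pr_eq_zero {S T : Set (List Bool)} (h : ∀ u ∈ S, ∀ v ∈ T, v ≠ u) {a b : B F}
    (ha : a ∈ Submodule.span F (wd F '' S)) (hb : b ∈ Submodule.span F (wd F '' T)) :
    pr F a b = 0 := by
  have h1 : ∀ u ∈ S, pr F (wd F u) b = 0 := by
    intro u hu
    have : Submodule.span F (wd F '' T) ≤ LinearMap.ker (pr F (wd F u)) := by
      rw [Submodule.span_le]
      rintro _ ⟨v, hv, rfl⟩
      simp only [SetLike.mem_coe, LinearMap.mem_ker, pr_wd_wd]
      rw [if_neg (h u hu v hv)]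
    exact this hb
  have h2 : Submodule.span F (wd F '' S) ≤ LinearMap.ker ((pr F).flip b) := by
    rw [Submodule.span_le]
    rintro _ ⟨u, hu, rfl⟩
    exact h1 u hu
  exact h2 ha

theorem pr_Hm_Ge {m n : ℕ} (h : m < n) {a b : B F} (ha : a ∈ Hm F m) (hb : b ∈ Ge F n) :
    pr F a b = 0 :=
  pr_eq_zero (fun u hu v hv => by
    rintro rfl
    simp only [Set.mem_ofPred_eq] at *
    omega) ha hb

/-! ### windows -/

theorem pr_window {P Q X Y : List Bool} (hP : X.length ≤ P.length) (hQ : Y.length ≤ Q.length)
    {d : ℕ} {θ : B F} (hθ : θ ∈ J F d) {f : B F} (hf : f ∈ Bpl F d) (N : ℕ) :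
    pr F (wd F P * θ * wd F Q) (wd F X * f ^ N * wd F Y) = 0 := by
  by_cases hX : X <+: P
  · by_cases hY : Y <:+ Q
    · obtain ⟨p, rfl⟩ := hX
      obtain ⟨q, rfl⟩ := hY
      -- cancel
      have key : ∀ (l m : List Bool),
          pr F (wd F (X ++ p) * wd F l * wd F (q ++ Y)) (wd F X * wd F m * wd F Y) =
          pr F (wd F p * wd F l * wd F q) (wd F m) := by
        intro l m
        simp only [wd_mul, pr_wd_wd]
        congr 1
        rw [show (X ++ p ++ l ++ (q ++ Y)) = X ++ (p ++ l ++ q) ++ Y by simp,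
          List.append_left_inj, List.append_right_inj]
      have h2 : ∀ (l : List Bool) (s : B F),
          pr F (wd F (X ++ p) * wd F l * wd F (q ++ Y)) (wd F X * s * wd F Y) =
          pr F (wd F p * wd F l * wd F q) s := by
        intro l s
        have : (pr F (wd F (X ++ p) * wd F l * wd F (q ++ Y))) ∘ₗ
            (LinearMap.mulRight F (wd F Y) ∘ₗ LinearMap.mulLeft F (wd F X)) =
            pr F (wd F p * wd F l * wd F q) := by
          apply lin_ext
          intro m
          simpa using key l m
        have := LinearMap.congr_fun this s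
        simpa using this
      have h3 : ∀ (Λ s : B F),
          pr F (wd F (X ++ p) * Λ * wd F (q ++ Y)) (wd F X * s * wd F Y) =
          pr F (wd F p * Λ * wd F q) s := by
        intro Λ s
        have : ((pr F).flip (wd F X * s * wd F Y)) ∘ₗ
            (LinearMap.mulRight F (wd F (q ++ Y)) ∘ₗ LinearMap.mulLeft F (wd F (X ++ p))) =
            ((pr F).flip s) ∘ₗ
            (LinearMap.mulRight F (wd F q) ∘ₗ LinearMap.mulLeft F (wd F p)) := by
          apply lin_ext
          intro l
          simpa using h2 l s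
        have := LinearMap.congr_fun this Λ
        simpa using this
      rw [h3]
      exact hθ f hf N _ _
    · -- zero since `Y` is not a suffix
      have h1 : wd F P * θ * wd F Q ∈ Submodule.span F (wd F '' {u | Q <:+ u}) := by
        have : (⊤ : Submodule F (B F)) * Submodule.span F (wd F '' {Q}) ≤
            Submodule.span F (wd F '' {u | Q <:+ u}) := by
          rw [← Ge_zero]
          exact span_mul_span_le (fun u _ v hv => by
            rw [Set.mem_singleton_iff.mp hv]
            exact List.suffix_append _ _)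
        exact this (Submodule.mul_mem_mul trivial (wd_mem rfl))
      have h2 : wd F X * f ^ N * wd F Y ∈ Submodule.span F (wd F '' {u | Y <:+ u}) := by
        have : (⊤ : Submodule F (B F)) * Submodule.span F (wd F '' {Y}) ≤
            Submodule.span F (wd F '' {u | Y <:+ u}) := by
          rw [← Ge_zero]
          exact span_mul_span_le (fun u _ v hv => by
            rw [Set.mem_singleton_iff.mp hv]
            exact List.suffix_append _ _)
        exact this (Submodule.mul_mem_mul trivial (wd_mem rfl))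
      refine pr_eq_zero ?_ h1 h2
      rintro u hu v hv rfl
      exact hY (List.suffix_of_suffix_length_le hv hu hQ)
  · have h1 : wd F P * θ * wd F Q ∈ Submodule.span F (wd F '' {u | P <+: u}) := by
      have : Submodule.span F (wd F '' {P}) * (⊤ : Submodule F (B F)) ≤
          Submodule.span F (wd F '' {u | P <+: u}) := by
        rw [← Ge_zero]
        exact span_mul_span_le (fun u hu v _ => by
          rw [Set.mem_singleton_iff.mp hu]
          exact List.prefix_append _ _)
      rw [mul_assoc]
      exact this (Submodule.mul_mem_mul (wd_mem rfl) trivial)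
    have h2 : wd F X * f ^ N * wd F Y ∈ Submodule.span F (wd F '' {u | X <+: u}) := by
      have : Submodule.span F (wd F '' {X}) * (⊤ : Submodule F (B F)) ≤
          Submodule.span F (wd F '' {u | X <+: u}) := by
        rw [← Ge_zero]
        exact span_mul_span_le (fun u hu v _ => by
          rw [Set.mem_singleton_iff.mp hu]
          exact List.prefix_append _ _)
      rw [mul_assoc]
      exact this (Submodule.mul_mem_mul (wd_mem rfl) trivial)
    refine pr_eq_zero ?_ h1 h2
    rintro u hu v hv rfl
    exact hX (List.prefix_of_prefix_length_le hv hu hP)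

theorem pr_window' {a b : ℕ} {X Y : List Bool} (hP : X.length ≤ a) (hQ : Y.length ≤ b)
    {d : ℕ} {θ : B F} (hθ : θ ∈ J F d) {f : B F} (hf : f ∈ Bpl F d) (N : ℕ)
    {Λ₁ Λ₃ : B F} (h1 : Λ₁ ∈ Hm F a) (h3 : Λ₃ ∈ Hm F b) :
    pr F (Λ₁ * θ * Λ₃) (wd F X * f ^ N * wd F Y) = 0 := by
  have step1 : ∀ P : List Bool, P.length = a → ∀ Λ₃ ∈ Hm F b,
      pr F (wd F P * θ * Λ₃) (wd F X * f ^ N * wd F Y) = 0 := by
    intro P hPl Λ₃ h3
    have : Hm F b ≤ LinearMap.ker (((pr F).flip (wd F X * f ^ N * wd F Y)) ∘ₗ
        LinearMap.mulLeft F (wd F P * θ)) := by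
      rw [Hm, Submodule.span_le]
      rintro _ ⟨Q, hQl, rfl⟩
      simp only [SetLike.mem_coe, LinearMap.mem_ker, LinearMap.comp_apply,
        LinearMap.mulLeft_apply, LinearMap.flip_apply]
      exact pr_window (by omega) (by simp only [Set.mem_ofPred_eq] at hQl; omega) hθ hf N
    exact this h3
  have : Hm F a ≤ LinearMap.ker (((pr F).flip (wd F X * f ^ N * wd F Y)) ∘ₗ
      LinearMap.mulRight F (θ * Λ₃)) := by
    rw [Hm, Submodule.span_le]
    rintro _ ⟨P, hPl, rfl⟩
    simp only [SetLike.mem_coe, LinearMap.mem_ker, LinearMap.comp_apply,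
      LinearMap.mulRight_apply, LinearMap.flip_apply]
    rw [← mul_assoc]
    exact step1 P hPl Λ₃ h3
  have h := this h1
  simp only [LinearMap.mem_ker, LinearMap.comp_apply, LinearMap.mulRight_apply,
    LinearMap.flip_apply] at h
  rw [mul_assoc]
  exact h

/-- the killing property -/
theorem kill {d D m N : ℕ} (hD : 0 < D) (hN : 2 * D ≤ N) {Λ : B F}
    (hΛ : Λ ∈ (J F d ⊓ Hm F D) ^ m) {f : B F} (hf : f ∈ Bpl F d) (X Y : List Bool) :
    pr F Λ (wd F X * f ^ N * wd F Y) = 0 := by
  have hWH : (J F d ⊓ Hm F D) ≤ Hm F D := inf_le_right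
  by_cases hlen : X.length + N + Y.length ≤ m * D
  · -- choose the window
    set a := (X.length + D - 1) / D with ha
    have ha1 : X.length ≤ a * D := by
      have := Nat.lt_div_mul_add (a := X.length + D - 1) hD
      rw [← ha] at this
      omega
    have ha2 : a * D ≤ X.length + D - 1 := Nat.div_mul_le_self _ _
    have ham : a + 1 ≤ m := by
      by_contra h
      push Not at h
      have : m ≤ a := by omega
      have := Nat.mul_le_mul_right D this
      omega
    obtain ⟨b, rfl⟩ := Nat.exists_eq_add_of_le ham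
    have hb : Y.length ≤ b * D := by
      have : (a + 1 + b) * D = a * D + D + b * D := by ring
      omega
    rw [pow_add, pow_succ] at hΛ
    -- linear induction
    have hle : (J F d ⊓ Hm F D) ^ a * (J F d ⊓ Hm F D) * (J F d ⊓ Hm F D) ^ b ≤
        LinearMap.ker ((pr F).flip (wd F X * f ^ N * wd F Y)) := by
      rw [Submodule.mul_le]
      intro x hx y hy
      have hy' : y ∈ Hm F (b * D) := (Hm_pow D b) (pow_le_pow_left' hWH b hy)
      have : (J F d ⊓ Hm F D) ^ a * (J F d ⊓ Hm F D) ≤
          LinearMap.ker (((pr F).flip (wd F X * f ^ N * wd F Y)) ∘ₗ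
            LinearMap.mulRight F y) := by
        rw [Submodule.mul_le]
        intro x' hx' θ hθ
        have hx'' : x' ∈ Hm F (a * D) := (Hm_pow D a) (pow_le_pow_left' hWH a hx')
        simp only [LinearMap.mem_ker, LinearMap.comp_apply, LinearMap.mulRight_apply,
          LinearMap.flip_apply]
        exact pr_window' ha1 hb hθ.1 hf N hx'' hy'
      exact this hx
    exact hle hΛ
  · push Not at hlen
    have h1 : Λ ∈ Hm F (m * D) := (Hm_pow D m) (pow_le_pow_left' hWH m hΛ)
    refine pr_Hm_Ge hlen h1 ?_
    refine mul_mem_Ge (mul_mem_Ge (wd_mem (le_refl X.length)) ?_) (wd_mem (le_refl Y.length))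
    have := pow_mem_Ge (Bpl_le_Ge d hf) N
    rwa [mul_one] at this

end Pool.EngelNI
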