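import Mathlib
import Pool.Agent.EngelNI.Protect

/-!
The recursive construction of the protecting elements.
-/

set_option autoImplicit false

noncomputable section

namespace Pool.EngelNI

variable {F : Type*} [Field F]

/-- `Λ = φ + ` larger words of the same length -/
def Low (φ : List Bool) (Λ : B F) : Prop := Λ - wd F φ ∈ Up F φ

theorem Up_le_Hm (φ : List Bool) : Up F φ ≤ Hm F φ.length :=
  Submodule.span_mono (Set.image_mono (fun _ h => h.2))

theorem Dn_le_Hm (φ : List Bool) : Dn F φ ≤ Hm F φ.length :=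
  Submodule.span_mono (Set.image_mono (fun _ h => h.2))

theorem Low.mem_Hm {φ : List Bool} {Λ : B F} (h : Low φ Λ) : Λ ∈ Hm F φ.length := by
  have := Submodule.add_mem _ (Up_le_Hm φ h) (wd_mem (F := F) (S := {l | l.length = φ.length})
    (u := φ) rfl)
  simpa using this

theorem Low.one : Low [] (1 : B F) := by
  rw [Low, wd_nil, sub_self]
  exact Submodule.zero_mem _

theorem Up_mul_Hm (φ ψ : List Bool) : Up F φ * Hm F ψ.length ≤ Up F (φ ++ ψ) :=
  span_mul_span_le (fun u hu v hv => by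
    simp only [Set.mem_ofPred_eq, List.length_append] at *
    exact ⟨hu.1.append _ _, by omega⟩)

theorem wd_mul_Up (φ ψ : List Bool) {x : B F} (hx : x ∈ Up F ψ) :
    wd F φ * x ∈ Up F (φ ++ ψ) := by
  have : Submodule.span F (wd F '' {φ}) * Up F ψ ≤ Up F (φ ++ ψ) :=
    span_mul_span_le (fun u hu v hv => by
      rw [Set.mem_singleton_iff.mp hu]
      simp only [Set.mem_ofPred_eq, List.length_append] at *
      exact ⟨hv.1.prepend _, by omega⟩)
  exact this (Submodule.mul_mem_mul (wd_mem rfl) hx)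

theorem Low.mul {φ ψ : List Bool} {Λ Λ' : B F} (h : Low φ Λ) (h' : Low ψ Λ') :
    Low (φ ++ ψ) (Λ * Λ') := by
  have e : Λ * Λ' - wd F (φ ++ ψ) = (Λ - wd F φ) * Λ' + wd F φ * (Λ' - wd F ψ) := by
    rw [← wd_mul]; noncomm_ring
  rw [Low, e]
  refine Submodule.add_mem _ ?_ (wd_mul_Up _ _ h')
  exact Up_mul_Hm φ ψ (Submodule.mul_mem_mul h h'.mem_Hm)

theorem Up_trans {φ ψ : List Bool} (h : Lx φ ψ) (hl : ψ.length = φ.length) :
    Up F ψ ≤ Up F φ :=
  Submodule.span_mono (Set.image_mono (fun _ h' => ⟨h.trans h'.1, h'.2.trans hl⟩))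

theorem Low.mem_Up {φ ψ : List Bool} (h : Lx φ ψ) (hl : ψ.length = φ.length) {Λ : B F}
    (hΛ : Low ψ Λ) : Λ ∈ Up F φ := by
  have := Submodule.add_mem _ (Up_trans h hl hΛ) (wd_mem (F := F)
    (S := {u | Lx φ u ∧ u.length = φ.length}) (u := ψ) ⟨h, hl⟩)
  simpa using this

theorem Low.list_prod {us : List (List Bool)} {Λs : List (B F)}
    (h : List.Forall₂ Low us Λs) : Low us.flatten Λs.prod := by
  induction h with
  | nil => simpa using Low.one
  | cons h1 _ ih =>
    rw [List.flatten_cons, List.prod_cons]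
    exact h1.mul ih

/-- the antisymmetrised product has lowest word the increasing concatenation -/
theorem Low.stp {n : ℕ} {u : Fin n → List Bool} (hu : (List.ofFn u).Pairwise Lx)
    {Λ : Fin n → B F} (h : ∀ i, Low (u i) (Λ i)) :
    Low (List.ofFn u).flatten (stp n Λ) := by
  have hterm : ∀ σ : Equiv.Perm (Fin n), Low (List.ofFn (fun i => u (σ i))).flatten
      (List.ofFn (fun i => Λ (σ i))).prod := by
    intro σ
    apply Low.list_prod
    rw [List.ofFn_eq_map, List.ofFn_eq_map, List.forall₂_map_left_iff,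
      List.forall₂_map_right_iff, List.forall₂_same]
    intro i _
    exact h (σ i)
  have hinj : Function.Injective u := by
    intro i j hij
    by_contra hne
    rw [List.pairwise_ofFn] at hu
    rcases lt_or_gt_of_ne hne with h' | h'
    · exact Lx.irrefl _ (hij ▸ hu h')
    · exact Lx.irrefl _ (hij ▸ hu h')
  rw [Low, Pool.EngelNI.stp, ← Finset.add_sum_erase _ _ (Finset.mem_univ (1 : Equiv.Perm (Fin n)))]
  have e1 : (((Equiv.Perm.sign (1 : Equiv.Perm (Fin n)) : ℤˣ) : ℤ)) •
      (List.ofFn (fun i => Λ ((1 : Equiv.Perm (Fin n)) i))).prod = (List.ofFn Λ).prod := by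
    simp
  rw [e1, add_sub_right_comm]
  refine Submodule.add_mem _ ?_ (Submodule.sum_mem _ ?_)
  · exact hterm 1
  · intro σ hσ
    have hσ1 : σ ≠ 1 := (Finset.mem_erase.mp hσ).1
    refine Submodule.smul_of_tower_mem _ _ ?_
    have hp : (List.ofFn (fun i => u (σ i))).Perm (List.ofFn u) :=
      Equiv.Perm.ofFn_comp_perm σ u
    refine Low.mem_Up ?_ ?_ (hterm σ)
    · refine lx_perm hu hp ?_
      intro he
      apply hσ1
      ext i
      have := congrFun (List.ofFn_injective he) i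
      exact congrArg Fin.val (hinj this)
    · rw [List.length_flatten, List.length_flatten]
      exact (hp.map List.length).sum_eq

/-! ### scales -/

/-- number of variables of the standard identity at level `k` -/
def nn (F : Type*) [Field F] (k : ℕ) : ℕ := Classical.choose (exists_stp_mem_J F k)

theorem nn_spec (F : Type*) [Field F] (k : ℕ) (v : Fin (nn F k) → B F) :
    stp (nn F k) v ∈ J F k := Classical.choose_spec (exists_stp_mem_J F k) v

/-- length bound of the chain lemma -/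
def LL (D n : ℕ) : ℕ :=
  if h : D = 0 then 0 else
    haveI : NeZero D := ⟨h⟩
    Classical.choose (exists_chain D n 1 le_rfl)

theorem LL_spec (D n : ℕ) (hD : 0 < D) (φ : List Bool) (hφ : Fw φ) (hL : LL D n ≤ φ.length) :
    ∃ (a b : List Bool) (us : List (List Bool)), φ = a ++ us.flatten ++ b ∧
        us.length = n ∧ D ∣ a.length ∧ (∀ u ∈ us, D ∣ u.length) ∧ us.Pairwise Lx := by
  have h : D ≠ 0 := by omega
  have : NeZero D := ⟨h⟩
  rw [LL, dif_neg h] at hL
  obtain ⟨a, b, us, h1, h2, h3, h4, h5, -⟩ :=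
    Classical.choose_spec (exists_chain D n 1 le_rfl) φ hφ hL
  exact ⟨a, b, us, h1, h2, h3, h4, h5⟩

/-- the scales -/
def Ds (F : Type*) [Field F] : ℕ → ℕ
  | 0 => 1
  | k + 1 => Ds F k * (LL (Ds F k) (nn F k) + 2)

theorem Ds_pos (k : ℕ) : 0 < Ds F k := by
  induction k with
  | zero => simp [Ds]
  | succ k ih => rw [Ds]; positivity

theorem Ds_dvd_succ (k : ℕ) : Ds F k ∣ Ds F (k + 1) := ⟨_, rfl⟩

theorem Ds_dvd {j k : ℕ} (h : j ≤ k) : Ds F j ∣ Ds F k := by
  induction k, h using Nat.le_induction with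
  | base => exact dvd_rfl
  | succ k _ ih => exact ih.trans (Ds_dvd_succ k)

theorem Ds_le {j k : ℕ} (h : j ≤ k) : Ds F j ≤ Ds F k :=
  Nat.le_of_dvd (Ds_pos k) (Ds_dvd h)

theorem Ds_ge (k : ℕ) : k ≤ Ds F k := by
  induction k with
  | zero => simp
  | succ k ih =>
    rw [Ds]
    have := Ds_pos (F := F) k
    nlinarith [Nat.zero_le (LL (Ds F k) (nn F k))]

theorem LL_le (k : ℕ) : LL (Ds F k) (nn F k) ≤ Ds F (k + 1) := by
  rw [Ds]
  have := Ds_pos (F := F) k
  nlinarith [Nat.zero_le (LL (Ds F k) (nn F k))]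

/-- the space of admissible blocks at scale `j + 1` -/
def Wsp (F : Type*) [Field F] (j : ℕ) : Submodule F (B F) := J F j ⊓ Hm F (Ds F (j + 1))

/-- `ψ` has a protecting element at level `k` -/
def Good (F : Type*) [Field F] (k : ℕ) (ψ : List Bool) : Prop :=
  ∃ Λ : B F, Low ψ Λ ∧ ∀ j < k, Λ ∈ (Wsp F j) ^ (ψ.length / Ds F (j + 1))

theorem Good.nil (k : ℕ) : Good F k [] :=
  ⟨1, Low.one, fun j _ => by
    rw [List.length_nil, Nat.zero_div, pow_zero]
    exact Submodule.one_le.mp le_rfl⟩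

theorem Good.append {k : ℕ} {ψ ψ' : List Bool} (h : Good F k ψ) (h' : Good F k ψ')
    (hd : Ds F k ∣ ψ.length) : Good F k (ψ ++ ψ') := by
  obtain ⟨Λ, h1, h2⟩ := h
  obtain ⟨Λ', h1', h2'⟩ := h'
  refine ⟨Λ * Λ', h1.mul h1', fun j hj => ?_⟩
  have hdj : Ds F (j + 1) ∣ ψ.length := (Ds_dvd hj).trans hd
  rw [List.length_append, Nat.add_div_of_dvd_right hdj, pow_add]
  exact Submodule.mul_mem_mul (h2 j hj) (h2' j hj)

/-- blocks of protected words are protected -/
theorem Good.of_blocks {k : ℕ} (hk : ∀ φ, Fw φ → φ.length = Ds F k → Good F k φ) (m : ℕ) :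
    ∀ ψ, Fw ψ → ψ.length = Ds F k * m → Good F k ψ := by
  induction m with
  | zero =>
    intro ψ _ hl
    rw [Nat.mul_zero, List.length_eq_zero_iff] at hl
    rw [hl]
    exact Good.nil k
  | succ m ih =>
    intro ψ hψ hl
    rw [Nat.mul_succ] at hl
    have h1 : (ψ.take (Ds F k)).length = Ds F k := by
      rw [List.length_take]; omega
    have h2 : (ψ.drop (Ds F k)).length = Ds F k * m := by
      rw [List.length_drop]; omega
    rw [← List.take_append_drop (Ds F k) ψ]
    exact (hk _ (hψ.factor (List.take_prefix _ _).isInfix) h1).append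
      (ih _ (hψ.factor (List.drop_suffix _ _).isInfix) h2) (by rw [h1])

theorem Good.of_dvd {k : ℕ} (hk : ∀ φ, Fw φ → φ.length = Ds F k → Good F k φ)
    {ψ : List Bool} (hψ : Fw ψ) (hd : Ds F k ∣ ψ.length) : Good F k ψ := by
  obtain ⟨m, hm⟩ := hd
  exact Good.of_blocks hk m ψ hψ hm

/-- products of elements of powers -/
theorem list_prod_mem_pow {W : Submodule F (B F)} {D : ℕ} {n : ℕ}
    (u : Fin n → List Bool) (Λ : Fin n → B F) (hd : ∀ i, D ∣ (u i).length)
    (h : ∀ i, Λ i ∈ W ^ ((u i).length / D)) :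
    (List.ofFn Λ).prod ∈ W ^ ((List.ofFn u).flatten.length / D) := by
  induction n with
  | zero =>
    rw [List.ofFn_zero, List.ofFn_zero, List.prod_nil, List.flatten_nil, List.length_nil,
      Nat.zero_div, pow_zero]
    exact Submodule.one_le.mp le_rfl
  | succ n ih =>
    rw [List.ofFn_succ, List.ofFn_succ, List.prod_cons, List.flatten_cons, List.length_append,
      Nat.add_div_of_dvd_right (hd 0), pow_add]
    exact Submodule.mul_mem_mul (h 0)
      (ih (fun i => u i.succ) (fun i => Λ i.succ) (fun i => hd _) (fun i => h _))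

theorem exists_ofFn {n : ℕ} {us : List (List Bool)} (h : us.length = n) :
    ∃ u : Fin n → List Bool, us = List.ofFn u := by
  subst h
  exact ⟨us.get, (List.ofFn_get us).symm⟩

theorem good_scale (k : ℕ) : ∀ φ, Fw φ → φ.length = Ds F k → Good F k φ := by
  induction k with
  | zero =>
    intro φ _ _
    refine ⟨wd F φ, ?_, fun j hj => absurd hj (Nat.not_lt_zero j)⟩
    rw [Low, sub_self]
    exact Submodule.zero_mem _
  | succ k ih =>
    intro φ hφ hl
    obtain ⟨a, b, us, h1, h2, h3, h4, h5⟩ := LL_spec (Ds F k) (nn F k) (Ds_pos k) φ hφ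
      (by rw [hl]; exact LL_le k)
    -- the parts
    have hFa : Fw a := hφ.factor ⟨[], us.flatten ++ b, by rw [h1]; simp⟩
    have hFb : Fw b := hφ.factor ⟨a ++ us.flatten, [], by rw [h1]; simp⟩
    have hFu : ∀ u ∈ us, Fw u := by
      intro u hu
      obtain ⟨s, t, rfl⟩ := List.append_of_mem hu
      exact hφ.factor ⟨a ++ s.flatten, t.flatten ++ b, by rw [h1]; simp⟩
    have hdus : Ds F k ∣ us.flatten.length := by
      rw [List.length_flatten]
      apply List.dvd_sum
      intro x hx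
      obtain ⟨u, hu, rfl⟩ := List.mem_map.mp hx
      exact h4 u hu
    have hdφ : Ds F k ∣ φ.length := by rw [hl]; exact Ds_dvd_succ k
    have hdb : Ds F k ∣ b.length := by
      rw [h1, List.length_append, List.length_append] at hdφ
      exact (Nat.dvd_add_right (dvd_add h3 hdus)).mp hdφ
    obtain ⟨Λa, ha1, ha2⟩ := Good.of_dvd ih hFa h3
    obtain ⟨Λb, hb1, hb2⟩ := Good.of_dvd ih hFb hdb
    obtain ⟨u, rfl⟩ := exists_ofFn h2
    have hgood : ∀ i, Good F k (u i) := fun i =>
      Good.of_dvd ih (hFu _ (by rw [List.mem_ofFn]; exact ⟨i, rfl⟩))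
        (h4 _ (by rw [List.mem_ofFn]; exact ⟨i, rfl⟩))
    choose Λ hΛ1 hΛ2 using hgood
    have hLow : Low φ (Λa * stp (nn F k) Λ * Λb) := by
      rw [h1]
      exact (ha1.mul (Low.stp h5 hΛ1)).mul hb1
    refine ⟨Λa * stp (nn F k) Λ * Λb, hLow, fun j hj => ?_⟩
    rcases Nat.lt_succ_iff_lt_or_eq.mp hj with hj | rfl
    · -- old scales
      have hdj : Ds F (j + 1) ∣ Ds F k := Ds_dvd hj
      rw [h1, List.length_append, Nat.add_div_of_dvd_left (hdj.trans hdb), List.length_append,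
        Nat.add_div_of_dvd_right (hdj.trans h3), pow_add, pow_add]
      refine Submodule.mul_mem_mul (Submodule.mul_mem_mul (ha2 j hj) ?_) (hb2 j hj)
      rw [stp]
      refine Submodule.sum_mem _ fun σ _ => Submodule.smul_of_tower_mem _ _ ?_
      have hp : (List.ofFn (fun i => u (σ i))).Perm (List.ofFn u) :=
        Equiv.Perm.ofFn_comp_perm σ u
      have hlen : (List.ofFn u).flatten.length = (List.ofFn (fun i => u (σ i))).flatten.length := by
        rw [List.length_flatten, List.length_flatten]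
        exact (hp.map List.length).sum_eq.symm
      rw [hlen]
      refine list_prod_mem_pow (fun i => u (σ i)) (fun i => Λ (σ i)) (fun i => ?_)
        (fun i => hΛ2 (σ i) j hj)
      exact hdj.trans (h4 _ (by rw [List.mem_ofFn]; exact ⟨σ i, rfl⟩))
    · -- the new scale
      rw [hl, Nat.div_self (Ds_pos _), pow_one]
      refine ⟨J_mul (nn_spec F j Λ) _ _, ?_⟩
      rw [← hl]
      exact hLow.mem_Hm

/-- nil exponents -/
def Nf (F : Type*) [Field F] (d : ℕ) : ℕ := 2 * Ds F (d + 1)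

/-- the set of protecting elements -/
def Prot (F : Type*) [Field F] : Set (B F) :=
  {Λ | (∃ n, Λ ∈ Hm F n) ∧ ∀ d, ∀ f ∈ Bpl F d, ∀ X Y : List Bool,
    pr F Λ (wd F X * f ^ (Nf F d) * wd F Y) = 0}

theorem exists_prot (k : ℕ) (φ : List Bool) (hφ : Fw φ) (hl : φ.length = Ds F k) :
    ∃ Λ ∈ Prot F, Low φ Λ := by
  obtain ⟨Λ, h1, h2⟩ := good_scale (F := F) k φ hφ hl
  refine ⟨Λ, ⟨⟨_, h1.mem_Hm⟩, fun d f hf X Y => ?_⟩, h1⟩
  by_cases hd : d < k
  · exact kill (Ds_pos (d + 1)) le_rfl (h2 d hd) hf X Y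
  · have h3 : Ds F k ≤ Ds F (d + 1) := Ds_le (by omega)
    have h4 := Ds_pos (F := F) (d + 1)
    have h5 : Λ ∈ Hm F (Ds F k) := hl ▸ h1.mem_Hm
    refine pr_Hm_Ge (n := X.length + Nf F d + Y.length) ?_ h5 ?_
    · rw [Nf]; omega
    · refine mul_mem_Ge (mul_mem_Ge (wd_mem (le_refl X.length)) ?_) (wd_mem (le_refl Y.length))
      have := pow_mem_Ge (Bpl_le_Ge d hf) (Nf F d)
      rwa [mul_one] at this

/-! ### leading words -/

/-- `r = c φ + ` smaller words, `c ≠ 0` -/
def High (φ : List Bool) (r : B F) : Prop := ∃ c : F, c ≠ 0 ∧ r - c • wd F φ ∈ Dn F φ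

theorem High.mem_Hm {φ : List Bool} {r : B F} (h : High φ r) : r ∈ Hm F φ.length := by
  obtain ⟨c, -, h⟩ := h
  have := Submodule.add_mem _ (Dn_le_Hm φ h) (Submodule.smul_mem _ c
    (wd_mem (F := F) (S := {l | l.length = φ.length}) (u := φ) rfl))
  simpa using this

theorem Dn_mul_Hm (φ ψ : List Bool) : Dn F φ * Hm F ψ.length ≤ Dn F (φ ++ ψ) :=
  span_mul_span_le (fun u hu v hv => by
    simp only [Set.mem_ofPred_eq, List.length_append] at *
    exact ⟨hu.1.append _ _, by omega⟩)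

theorem wd_mul_Dn (φ ψ : List Bool) {x : B F} (hx : x ∈ Dn F ψ) :
    wd F φ * x ∈ Dn F (φ ++ ψ) := by
  have : Submodule.span F (wd F '' {φ}) * Dn F ψ ≤ Dn F (φ ++ ψ) :=
    span_mul_span_le (fun u hu v hv => by
      rw [Set.mem_singleton_iff.mp hu]
      simp only [Set.mem_ofPred_eq, List.length_append] at *
      exact ⟨hv.1.prepend _, by omega⟩)
  exact this (Submodule.mul_mem_mul (wd_mem rfl) hx)

theorem High.mul {φ ψ : List Bool} {r s : B F} (h : High φ r) (h' : High ψ s) :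
    High (φ ++ ψ) (r * s) := by
  have hs := h'.mem_Hm
  obtain ⟨c, hc, h⟩ := h
  obtain ⟨c', hc', h'⟩ := h'
  refine ⟨c * c', mul_ne_zero hc hc', ?_⟩
  have e : r * s - (c * c') • wd F (φ ++ ψ) =
      (r - c • wd F φ) * s + c • (wd F φ * (s - c' • wd F ψ)) := by
    rw [← wd_mul, mul_sub, sub_mul, smul_sub, mul_smul_comm, smul_mul_assoc, smul_smul]
    abel
  rw [e]
  exact Submodule.add_mem _ (Dn_mul_Hm φ ψ (Submodule.mul_mem_mul h hs))
    (Submodule.smul_mem _ _ (wd_mul_Dn _ _ h'))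

theorem High.mem_Dn {φ ψ : List Bool} (h : Lx ψ φ) (hl : ψ.length = φ.length) {r : B F}
    (hr : High ψ r) : r ∈ Dn F φ := by
  obtain ⟨c, -, hr⟩ := hr
  have h1 : Dn F ψ ≤ Dn F φ :=
    Submodule.span_mono (Set.image_mono (fun _ h' => ⟨h'.1.trans h, h'.2.trans hl⟩))
  have := Submodule.add_mem _ (h1 hr) (Submodule.smul_mem _ c (wd_mem (F := F)
    (S := {u | Lx u φ ∧ u.length = φ.length}) (u := ψ) ⟨h, hl⟩))
  simpa using this

theorem High.sub {φ ψ : List Bool} (h : Lx ψ φ) (hl : ψ.length = φ.length) {r s : B F}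
    (hr : High φ r) (hs : High ψ s) : High φ (r - s) := by
  obtain ⟨c, hc, hr'⟩ := hr
  refine ⟨c, hc, ?_⟩
  rw [sub_right_comm]
  exact Submodule.sub_mem _ hr' (hs.mem_Dn h hl)

theorem High.neg {φ : List Bool} {r : B F} (h : High φ r) : High φ (-r) := by
  obtain ⟨c, hc, h⟩ := h
  refine ⟨-c, neg_ne_zero.mpr hc, ?_⟩
  have e : -r - (-c) • wd F φ = -(r - c • wd F φ) := by rw [neg_smul]; abel
  rw [e]
  exact Submodule.neg_mem _ h

theorem High.wd (φ : List Bool) : High φ (wd F φ) := by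
  refine ⟨1, one_ne_zero, ?_⟩
  rw [one_smul, sub_self]
  exact Submodule.zero_mem _

/-- pairing of a lowest word with a highest word -/
theorem pr_Low_High {φ : List Bool} {Λ r : B F} (h : Low φ Λ) (h' : High φ r) :
    pr F Λ r ≠ 0 := by
  obtain ⟨c, hc, h'⟩ := h'
  have e : pr F Λ r = c := by
    have hφ : wd F φ ∈ Submodule.span F (wd F '' ({φ} : Set (List Bool))) := wd_mem rfl
    have z1 : pr F (wd F φ) (r - c • wd F φ) = 0 := by
      refine pr_eq_zero (S := {φ}) ?_ hφ h'
      rintro u hu v hv rfl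
      rw [Set.mem_singleton_iff] at hu
      subst hu
      exact Lx.irrefl _ hv.1
    have z2 : pr F (Λ - wd F φ) (wd F φ) = 0 := by
      refine pr_eq_zero (T := {φ}) ?_ h hφ
      rintro u hu v hv rfl
      rw [Set.mem_singleton_iff] at hv
      subst hv
      exact Lx.irrefl _ hu.1
    have z3 : pr F (Λ - wd F φ) (r - c • wd F φ) = 0 := by
      refine pr_eq_zero ?_ h h'
      rintro u hu v hv rfl
      exact Lx.irrefl _ (hu.1.trans hv.1)
    have z4 : pr F (wd F φ) (wd F φ) = 1 := by rw [pr_wd_wd, if_pos rfl]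
    simp only [map_sub, LinearMap.sub_apply, map_smul, smul_eq_mul] at z1 z2 z3
    rw [z4, mul_one] at z1
    rw [z4] at z2 z3
    have h1 : pr F (wd F φ) r = c := sub_eq_zero.mp z1
    have h2 : pr F Λ (wd F φ) = 1 := sub_eq_zero.mp z2
    rw [h1, h2] at z3
    linear_combination z3
  rw [e]; exact hc

end Pool.EngelNI
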