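import Mathlib
import Pool.Agent.EngelNI.Protect2
import Pool.Agent.EngelNI.Group

/-!
The graded nil algebra: the quotient of the free algebra by the elements annihilated by all
protecting elements.
-/

set_option autoImplicit false

noncomputable section

namespace Pool.EngelNI

variable (F : Type*) [Field F]

/-- the ideal -/
def E : Ideal (B F) where
  carrier := {r | ∀ Λ ∈ Prot F, ∀ a b : B F, pr F Λ (a * r * b) = 0}
  add_mem' {x y} hx hy Λ hΛ a b := by
    rw [mul_add, add_mul, map_add, hx Λ hΛ, hy Λ hΛ, add_zero]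
  zero_mem' Λ hΛ a b := by simp
  smul_mem' c x hx Λ hΛ a b := by
    rw [smul_eq_mul, ← mul_assoc]
    exact hx Λ hΛ (a * c) b

instance : (E F).IsTwoSided where
  mul_mem_of_left {x} y hx := by
    intro Λ hΛ a b
    have := hx Λ hΛ a (y * b)
    rw [← this]
    congr 1
    simp [mul_assoc]

/-- the quotient ring -/
abbrev Q := B F ⧸ E F

/-- filtration of the quotient -/
def Iq (m : ℕ) : AddSubgroup (Q F) :=
  (Ge F m).toAddSubgroup.map (Ideal.Quotient.mk (E F)).toAddMonoidHom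

variable {F}

theorem mk_mem_Iq {m : ℕ} {r : B F} (h : r ∈ Ge F m) : Ideal.Quotient.mk (E F) r ∈ Iq F m :=
  ⟨r, h, rfl⟩

theorem Iq_zero (x : Q F) : x ∈ Iq F 0 := by
  obtain ⟨r, rfl⟩ := Ideal.Quotient.mk_surjective x
  exact mk_mem_Iq (by rw [Ge_zero]; trivial)

theorem Iq_mul {m n : ℕ} {x y : Q F} (hx : x ∈ Iq F m) (hy : y ∈ Iq F n) :
    x * y ∈ Iq F (m + n) := by
  obtain ⟨r, hr, rfl⟩ := hx
  obtain ⟨s, hs, rfl⟩ := hy
  exact ⟨r * s, mul_mem_Ge hr hs, by simp⟩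

theorem Iq_anti {m n : ℕ} (h : m ≤ n) {x : Q F} (hx : x ∈ Iq F n) : x ∈ Iq F m := by
  obtain ⟨r, hr, rfl⟩ := hx
  exact ⟨r, Ge_anti h hr, rfl⟩

theorem mem_E_of_words {r : B F}
    (h : ∀ Λ ∈ Prot F, ∀ X Y : List Bool, pr F Λ (wd F X * r * wd F Y) = 0) : r ∈ E F := by
  intro Λ hΛ a b
  have h1 : ∀ (X : List Bool) (b : B F), pr F Λ (wd F X * r * b) = 0 := by
    intro X b
    have : (pr F Λ) ∘ₗ LinearMap.mulLeft F (wd F X * r) = 0 := by
      apply lin_ext
      intro Y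
      simpa [mul_assoc] using h Λ hΛ X Y
    exact LinearMap.congr_fun this b
  have : (pr F Λ) ∘ₗ LinearMap.mulRight F (r * b) = 0 := by
    apply lin_ext
    intro X
    simpa [mul_assoc] using h1 X b
  have := LinearMap.congr_fun this a
  simpa [mul_assoc] using this

theorem Iq_inf (x : Q F) (hx : ∀ m, x ∈ Iq F m) : x = 0 := by
  obtain ⟨r, rfl⟩ := Ideal.Quotient.mk_surjective x
  rw [Ideal.Quotient.eq_zero_iff_mem]
  apply mem_E_of_words
  intro Λ hΛ X Y
  obtain ⟨n, hn⟩ := hΛ.1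
  obtain ⟨s, hs, hrs⟩ := hx (n + 1)
  have h1 : r - s ∈ E F := by
    rw [← Ideal.Quotient.eq]
    exact hrs.symm
  have h2 := h1 Λ hΛ (wd F X) (wd F Y)
  have h3 : pr F Λ (wd F X * s * wd F Y) = 0 := by
    refine pr_Hm_Ge (n := X.length + (n + 1) + Y.length) (by omega) hn ?_
    exact mul_mem_Ge (mul_mem_Ge (wd_mem (le_refl X.length)) hs) (wd_mem (le_refl Y.length))
  rw [mul_sub, sub_mul, map_sub, h3, sub_zero] at h2
  exact h2

theorem Bpl_mono {d e : ℕ} (h : d ≤ e) : Bpl F d ≤ Bpl F e :=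
  Submodule.span_mono (Set.image_mono (fun _ h' => ⟨h'.1, h'.2.trans h⟩))

theorem exists_Bpl {f : B F} (hf : f ∈ Ge F 1) : ∃ d, f ∈ Bpl F d := by
  refine Submodule.span_induction (p := fun f _ => ∃ d, f ∈ Bpl F d) ?_ ?_ ?_ ?_ hf
  · rintro _ ⟨l, hl, rfl⟩
    exact ⟨l.length, wd_mem (S := {l' | 1 ≤ l'.length ∧ l'.length ≤ l.length}) ⟨hl, le_rfl⟩⟩
  · exact ⟨0, Submodule.zero_mem _⟩
  · rintro x y - - ⟨d, hd⟩ ⟨e, he⟩
    exact ⟨max d e, Submodule.add_mem _ (Bpl_mono (le_max_left _ _) hd)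
      (Bpl_mono (le_max_right _ _) he)⟩
  · rintro c x - ⟨d, hd⟩
    exact ⟨d, Submodule.smul_mem _ _ hd⟩

theorem Iq_nil {x : Q F} (hx : x ∈ Iq F 1) : IsNilpotent x := by
  obtain ⟨f, hf, rfl⟩ := hx
  obtain ⟨d, hd⟩ := exists_Bpl hf
  refine ⟨Nf F d, ?_⟩
  have : (Ideal.Quotient.mk (E F)) (f ^ Nf F d) = 0 := by
    rw [Ideal.Quotient.eq_zero_iff_mem]
    exact mem_E_of_words (fun Λ hΛ X Y => hΛ.2 d f hd X Y)
  rw [map_pow] at this
  exact this

/-! ### the protected sequence -/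

variable (F) in
/-- the Fibonacci commutators in the free algebra -/
def vf : ℕ → B F
  | 0 => wd F (al 1)
  | 1 => wd F (be 1)
  | n + 2 => vf n * vf (n + 1) - vf (n + 1) * vf n

theorem dd_length (k : ℕ) : dg3 (2 * k) = (al (k + 1)).length ∧
    dg3 (2 * k + 1) = (be (k + 1)).length := by
  induction k with
  | zero => simp [dg3, al_succ, be_succ, al_zero, be_zero]
  | succ k ih =>
    have e1 : dg3 (2 * (k + 1)) = (al (k + 1 + 1)).length := by
      rw [show 2 * (k + 1) = 2 * k + 2 by ring, dg3, ih.1, ih.2, al_succ (k + 1),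
        List.length_append]
    refine ⟨e1, ?_⟩
    rw [show 2 * (k + 1) + 1 = (2 * k + 1) + 2 by ring, dg3, ih.2,
      show 2 * k + 1 + 1 = 2 * (k + 1) by ring, e1, be_succ (k + 1), List.length_append,
      add_comm]

theorem vf_high (k : ℕ) : High (al (k + 1)) (vf F (2 * k)) ∧
    High (be (k + 1)) (vf F (2 * k + 1)) := by
  induction k with
  | zero => exact ⟨High.wd _, High.wd _⟩
  | succ k ih =>
    have e1 : High (al (k + 1 + 1)) (vf F (2 * (k + 1))) := by
      rw [show 2 * (k + 1) = 2 * k + 2 by ring, vf, al_succ (k + 1)]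
      exact High.sub (lx_be_al (k + 1)) (by simp [add_comm]) (ih.1.mul ih.2) (ih.2.mul ih.1)
    refine ⟨e1, ?_⟩
    rw [show 2 * (k + 1) + 1 = (2 * k + 1) + 2 by ring, vf,
      show 2 * k + 1 + 1 = 2 * (k + 1) by ring, be_succ (k + 1), ← neg_sub]
    exact (High.sub (lx_be_al' (k + 1)) (by simp [add_comm]) (e1.mul ih.2) (ih.2.mul e1)).neg

theorem vf_mem (k : ℕ) : vf F k ∈ Ge F (dg3 k) := by
  rcases Nat.even_or_odd' k with ⟨c, rfl | rfl⟩
  · rw [(dd_length c).1]; exact Hm_le_Ge _ (vf_high c).1.mem_Hm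
  · rw [(dd_length c).2]; exact Hm_le_Ge _ (vf_high c).2.mem_Hm

theorem vf_not_mem (k : ℕ) :
    Ideal.Quotient.mk (E F) (vf F (2 * k)) ∉ Iq F (dg3 (2 * k) + 1) := by
  rintro ⟨s, hs, hsv⟩
  have h1 : s - vf F (2 * k) ∈ E F := by
    rw [← Ideal.Quotient.eq]
    exact hsv
  -- the protected word
  set K := (al (k + 1)).length with hK
  have hKle : K ≤ Ds F K := Ds_ge K
  have hpre : al (k + 1) <+: al (k + 1 + Ds F K) := al_prefix (by omega)
  obtain ⟨t, ht⟩ := hpre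
  have hlen : Ds F K ≤ (al (k + 1 + Ds F K)).length :=
    le_trans (by omega) (length_al_ge (k + 1 + Ds F K))
  set Y := t.take (Ds F K - K) with hY
  have hφl : (al (k + 1) ++ Y).length = Ds F K := by
    have h3 : t.length = (al (k + 1 + Ds F K)).length - K := by
      rw [← ht, List.length_append]; omega
    rw [List.length_append, hY, List.length_take]
    omega
  have hφ : Fw (al (k + 1) ++ Y) := by
    refine ⟨k + 1 + Ds F K, [], t.drop (Ds F K - K), ?_⟩
    rw [List.nil_append, List.append_assoc, hY, List.take_append_drop, ht]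
  obtain ⟨Λ, hΛ, hLow⟩ := exists_prot (F := F) K _ hφ hφl
  have hHigh : High (al (k + 1) ++ Y) (vf F (2 * k) * wd F Y) :=
    (vf_high k).1.mul (High.wd Y)
  have h4 := pr_Low_High hLow hHigh
  apply h4
  have h5 := h1 Λ hΛ 1 (wd F Y)
  rw [one_mul, sub_mul, map_sub] at h5
  have h6 : pr F Λ (s * wd F Y) = 0 := by
    refine pr_Hm_Ge (n := dg3 (2 * k) + 1 + Y.length) ?_ hLow.mem_Hm ?_
    · rw [(dd_length k).1, List.length_append]; omega
    · exact mul_mem_Ge hs (wd_mem (le_refl Y.length))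
  rw [h6, zero_sub, neg_eq_zero] at h5
  exact h5

end Pool.EngelNI
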