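import Mathlib
import Pool.Agent.EngelNI.Ring
import Pool.Agent.EngelNI.Final

/-!
Assembly: a group without elements of order two whose Engel elements do not form a subgroup.
-/

set_option autoImplicit false

namespace Pool.EngelNI

/-- the field with three elements -/
abbrev F3 := ZMod 3

instance : Fact (Nat.Prime 3) := ⟨by norm_num⟩

/-- the quotient ring satisfies the hypotheses of the reduction -/
theorem filt_Q : Filt (Q F3) (Iq F3) where
  zero := Iq_zero
  mul := Iq_mul
  anti := fun h hx => Iq_anti h hx
  inf := Iq_inf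
  nil := Iq_nil
  three := by
    have h : (3 : B F3) = 0 := by
      have e : (3 : B F3) = algebraMap F3 (B F3) 3 := (map_ofNat (algebraMap F3 (B F3)) 3).symm
      rw [e, show (3 : F3) = 0 from by decide, map_zero]
    have : (3 : Q F3) = Ideal.Quotient.mk (E F3) 3 := (map_ofNat (Ideal.Quotient.mk (E F3)) 3).symm
    rw [this, h, map_zero]

/-- there is a group without involutions in which the Engel elements do not form a subgroup -/
theorem exists_counterexample :
    ∃ (G : Type) (_ : Group G), (∀ x : G, orderOf x ≠ 2) ∧
      ¬ ∃ H : Subgroup G, ∀ g : G,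
        g ∈ H ↔ ∀ h : G, ∃ k : ℕ, (fun x : G => x⁻¹ * g⁻¹ * x * g)^[k] h = 1 := by
  refine main_reduction filt_Q (fun n => Ideal.Quotient.mk (E F3) (vf F3 n)) ?_ ?_ ?_
  · intro n
    change Ideal.Quotient.mk (E F3) (vf F3 (n + 2)) = _
    rw [vf, map_sub, map_mul, map_mul]
  · intro n
    exact mk_mem_Iq (vf_mem n)
  · intro n
    exact vf_not_mem n

end Pool.EngelNI
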