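import Mathlib
import Pool.Agent.EngelNI.Main

/-!
A three generated, residually finite-3 version of the counterexample.
-/

set_option autoImplicit false

namespace Pool.EngelNI

open Matrix

section general

variable {Q : Type} [Ring Q] {I : ℕ → AddSubgroup Q}

theorem Filt.Ent_mulLn (hI : Filt Q I) {n : ℕ} {M N : Matrix (Fin 3) (Fin 3) Q}
    (hN : Ent (I n) N) : Ent (I n) (M * N) := by
  intro i j
  rw [mul_apply]
  exact sum_mem fun k _ => hI.mulL _ (hN k j)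

theorem Filt.Ent_mulRn (hI : Filt Q I) {n : ℕ} {M N : Matrix (Fin 3) (Fin 3) Q}
    (hM : Ent (I n) M) : Ent (I n) (M * N) := by
  intro i j
  rw [mul_apply]
  exact sum_mem fun k _ => hI.mulR _ (hM i k)

theorem Filt.Ent_mulmn (hI : Filt Q I) {m n : ℕ} {M N : Matrix (Fin 3) (Fin 3) Q}
    (hM : Ent (I m) M) (hN : Ent (I n) N) : Ent (I (m + n)) (M * N) := by
  intro i j
  rw [mul_apply]
  exact sum_mem fun k _ => hI.mul (hM i k) (hN k j)

theorem Ent_neg {I₁ : AddSubgroup Q} {M : Matrix (Fin 3) (Fin 3) Q} (h : Ent I₁ M) :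
    Ent I₁ (-M) := fun i j => by
  rw [Matrix.neg_apply]; exact neg_mem (h i j)

theorem Ent_add {I₁ : AddSubgroup Q} {M N : Matrix (Fin 3) (Fin 3) Q} (h : Ent I₁ M)
    (h' : Ent I₁ N) : Ent I₁ (M + N) := fun i j => by
  rw [Matrix.add_apply]; exact add_mem (h i j) (h' i j)

theorem Filt.three_mat (hI : Filt Q I) (y : Matrix (Fin 3) (Fin 3) Q) : 3 * y = 0 := by
  have e : (3 : Matrix (Fin 3) (Fin 3) Q) * y = y + y + y := by noncomm_ring
  rw [e]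
  ext i j
  have := hI.three_mul (y i j)
  rw [Matrix.add_apply, Matrix.add_apply, Matrix.zero_apply, ← this]
  noncomm_ring

theorem Filt.one_add_pow (hI : Filt Q I) (y : Matrix (Fin 3) (Fin 3) Q) (k : ℕ) :
    (1 + y) ^ 3 ^ k = 1 + y ^ 3 ^ k := by
  induction k with
  | zero => simp
  | succ k ih =>
    have cube : ∀ z : Matrix (Fin 3) (Fin 3) Q, (1 + z) ^ 3 = 1 + z ^ 3 := by
      intro z
      have e : (1 + z) ^ 3 = 1 + z ^ 3 + 3 * z + 3 * (z * z) := by noncomm_ring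
      rw [e, hI.three_mat, hI.three_mat, add_zero, add_zero]
    rw [pow_succ, pow_mul, ih, cube, ← pow_mul]

theorem Filt.UT_cube (hI : Filt Q I) {M : Matrix (Fin 3) (Fin 3) Q} (hM : UT (I 1) M) :
    Ent (I 1) ((M - 1) ^ 3) := by
  have h1 : ∀ i j, j ≤ i → (M - 1) i j ∈ I 1 := by
    intro i j hij
    rcases lt_or_eq_of_le hij with h | rfl
    · rw [Matrix.sub_apply, one_apply_ne h.ne', sub_zero]; exact hM.1 i j h
    · rw [Matrix.sub_apply, one_apply_eq]; exact hM.2 j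
  have e : (M - 1) ^ 3 = (M - 1) * ((M - 1) * (M - 1)) := by noncomm_ring
  rw [e]
  intro i j
  rw [mul_apply]
  refine sum_mem fun k _ => ?_
  rcases le_or_gt k i with hk | hk
  · exact hI.mulR _ (h1 i k hk)
  refine hI.mulL _ ?_
  rw [mul_apply]
  refine sum_mem fun l _ => ?_
  rcases le_or_gt l k with hl | hl
  · exact hI.mulR _ (h1 k l hl)
  refine hI.mulL _ (h1 l j ?_)
  have := i.2; have := j.2; have := l.2
  rw [Fin.lt_def] at hk hl
  rw [Fin.le_def]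
  omega

theorem Filt.Ent_pow (hI : Filt Q I) {M : Matrix (Fin 3) (Fin 3) Q} (hM : Ent (I 1) M) (n : ℕ) :
    Ent (I n) (M ^ n) := by
  induction n with
  | zero => exact fun i j => hI.zero _
  | succ n ih => rw [pow_succ]; exact hI.Ent_mulmn ih hM

theorem Filt.exists_pow (hI : Filt Q I) {M : Matrix (Fin 3) (Fin 3) Q} (hM : UT (I 1) M) (n : ℕ) :
    ∃ k : ℕ, Ent (I n) (M ^ 3 ^ k - 1) := by
  refine ⟨n + 1, ?_⟩
  have e : M ^ 3 ^ (n + 1) - 1 = (M - 1) ^ 3 ^ (n + 1) := by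
    have := hI.one_add_pow (M - 1) (n + 1)
    rw [add_sub_cancel] at this
    rw [this, add_sub_cancel_left]
  have hle : n ≤ 3 ^ n := (Nat.lt_pow_self (by norm_num)).le
  obtain ⟨m, hm⟩ := Nat.exists_eq_add_of_le hle
  rw [e, pow_succ', pow_mul, hm, pow_add]
  exact hI.Ent_mulRn (hI.Ent_pow (hI.UT_cube hM) n)

/-- the congruence subgroups of a group of matrices -/
def Cong (hI : Filt Q I) (K : Subgroup (Matrix (Fin 3) (Fin 3) Q)ˣ) (n : ℕ) : Subgroup K where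
  carrier := {g | Ent (I n) (((g : (Matrix (Fin 3) (Fin 3) Q)ˣ) : Matrix (Fin 3) (Fin 3) Q) - 1)}
  mul_mem' {a b} ha hb := by
    change Ent (I n) ((((a * b : K) : (Matrix (Fin 3) (Fin 3) Q)ˣ) :
      Matrix (Fin 3) (Fin 3) Q) - 1)
    have e : (((a * b : K) : (Matrix (Fin 3) (Fin 3) Q)ˣ) : Matrix (Fin 3) (Fin 3) Q) - 1 =
        (((a : (Matrix (Fin 3) (Fin 3) Q)ˣ) : Matrix (Fin 3) (Fin 3) Q) - 1) *
          ((b : (Matrix (Fin 3) (Fin 3) Q)ˣ) : Matrix (Fin 3) (Fin 3) Q) +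
        (((b : (Matrix (Fin 3) (Fin 3) Q)ˣ) : Matrix (Fin 3) (Fin 3) Q) - 1) := by
      rw [Subgroup.coe_mul, Units.val_mul]; noncomm_ring
    rw [e]
    exact Ent_add (hI.Ent_mulRn ha) hb
  one_mem' := by
    change Ent (I n) ((((1 : K) : (Matrix (Fin 3) (Fin 3) Q)ˣ) : Matrix (Fin 3) (Fin 3) Q) - 1)
    rw [Subgroup.coe_one, Units.val_one, sub_self]
    exact fun i j => zero_mem _
  inv_mem' {a} ha := by
    change Ent (I n) ((((a⁻¹ : K) : (Matrix (Fin 3) (Fin 3) Q)ˣ) :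
      Matrix (Fin 3) (Fin 3) Q) - 1)
    have e : (((a⁻¹ : K) : (Matrix (Fin 3) (Fin 3) Q)ˣ) : Matrix (Fin 3) (Fin 3) Q) - 1 =
        -((((a⁻¹ : K) : (Matrix (Fin 3) (Fin 3) Q)ˣ) : Matrix (Fin 3) (Fin 3) Q) *
          (((a : (Matrix (Fin 3) (Fin 3) Q)ˣ) : Matrix (Fin 3) (Fin 3) Q) - 1)) := by
      rw [mul_sub, mul_one, Subgroup.coe_inv, Units.inv_mul, neg_sub]
    rw [e]
    exact Ent_neg (hI.Ent_mulLn ha)

theorem Cong_normal (hI : Filt Q I) (K : Subgroup (Matrix (Fin 3) (Fin 3) Q)ˣ) (n : ℕ) :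
    (Cong hI K n).Normal := by
  constructor
  intro a ha g
  change Ent (I n) ((((g * a * g⁻¹ : K) : (Matrix (Fin 3) (Fin 3) Q)ˣ) :
      Matrix (Fin 3) (Fin 3) Q) - 1)
  have e : (((g * a * g⁻¹ : K) : (Matrix (Fin 3) (Fin 3) Q)ˣ) : Matrix (Fin 3) (Fin 3) Q) - 1 =
      ((g : (Matrix (Fin 3) (Fin 3) Q)ˣ) : Matrix (Fin 3) (Fin 3) Q) *
      (((a : (Matrix (Fin 3) (Fin 3) Q)ˣ) : Matrix (Fin 3) (Fin 3) Q) - 1) *
      (((g⁻¹ : K) : (Matrix (Fin 3) (Fin 3) Q)ˣ) : Matrix (Fin 3) (Fin 3) Q) := by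
    rw [mul_sub, sub_mul, mul_one, Subgroup.coe_mul, Subgroup.coe_mul, Units.val_mul,
      Units.val_mul, Subgroup.coe_inv, Units.mul_inv]
  rw [e]
  exact hI.Ent_mulRn (hI.Ent_mulLn ha)

theorem Cong_finite (hI : Filt Q I) (K : Subgroup (Matrix (Fin 3) (Fin 3) Q)ˣ) (n : ℕ)
    [Finite (Q ⧸ I n)] : Finite (K ⧸ Cong hI K n) := by
  refine Finite.of_injective (β := Fin 3 → Fin 3 → Q ⧸ I n)
    (fun x i j => (((x.out : (Matrix (Fin 3) (Fin 3) Q)ˣ) : Matrix (Fin 3) (Fin 3) Q) i j :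
      Q ⧸ I n)) ?_
  intro x y hxy
  rw [← QuotientGroup.out_eq' x, ← QuotientGroup.out_eq' y, QuotientGroup.eq]
  change Ent (I n) (((((x.out)⁻¹ * y.out : K) : (Matrix (Fin 3) (Fin 3) Q)ˣ) :
      Matrix (Fin 3) (Fin 3) Q) - 1)
  have e : ((((x.out)⁻¹ * y.out : K) : (Matrix (Fin 3) (Fin 3) Q)ˣ) :
      Matrix (Fin 3) (Fin 3) Q) - 1 =
      ((((x.out)⁻¹ : K) : (Matrix (Fin 3) (Fin 3) Q)ˣ) : Matrix (Fin 3) (Fin 3) Q) *
      (((y.out : (Matrix (Fin 3) (Fin 3) Q)ˣ) : Matrix (Fin 3) (Fin 3) Q) -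
       ((x.out : (Matrix (Fin 3) (Fin 3) Q)ˣ) : Matrix (Fin 3) (Fin 3) Q)) := by
    rw [mul_sub, Subgroup.coe_mul, Units.val_mul, Subgroup.coe_inv, Units.inv_mul]
  rw [e]
  refine hI.Ent_mulLn ?_
  intro i j
  have h := congrFun (congrFun hxy i) j
  have h' := QuotientAddGroup.eq.mp h
  rw [Matrix.sub_apply, sub_eq_neg_add]
  exact h'

theorem Cong_index (hI : Filt Q I) {K : Subgroup (Matrix (Fin 3) (Fin 3) Q)ˣ}
    (hK : K ≤ GG hI) (n : ℕ) [Finite (Q ⧸ I n)] :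
    ∃ k : ℕ, (Cong hI K n).index = 3 ^ k := by
  haveI := Cong_normal hI K n
  haveI := Cong_finite hI K n
  have hp : IsPGroup 3 (K ⧸ Cong hI K n) := by
    intro x
    obtain ⟨g, rfl⟩ := QuotientGroup.mk_surjective x
    obtain ⟨k, hk⟩ := hI.exists_pow (hK g.2).1 n
    refine ⟨k, ?_⟩
    rw [← QuotientGroup.mk_pow, QuotientGroup.eq_one_iff]
    change Ent (I n) ((((g ^ 3 ^ k : K) : (Matrix (Fin 3) (Fin 3) Q)ˣ) :
      Matrix (Fin 3) (Fin 3) Q) - 1)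
    rw [Subgroup.coe_pow, Units.val_pow_eq_pow_val]
    exact hk
  exact (IsPGroup.iff_card (p := 3)).mp hp

theorem Cong_sep (hI : Filt Q I) {K : Subgroup (Matrix (Fin 3) (Fin 3) Q)ˣ} {g : K}
    (hg : g ≠ 1) : ∃ n, g ∉ Cong hI K n := by
  by_contra hcon
  push Not at hcon
  apply hg
  apply Subtype.ext
  apply Units.ext
  rw [Subgroup.coe_one, Units.val_one, ← sub_eq_zero]
  ext i j
  rw [Matrix.zero_apply]
  exact hI.inf _ fun m => hcon m i j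

end general

end Pool.EngelNI
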