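import Mathlib
import Pool.Agent.EngelNI.Resid

/-!
Assembly of the three generated, residually finite-3 counterexample.
-/

set_option autoImplicit false

namespace Pool.EngelNI

open Matrix

/-! ### the quotients of the algebra are finite -/

theorem Ble_sup_Ge (F : Type*) [Field F] (n : ℕ) : Ble F n ⊔ Ge F n = ⊤ := by
  rw [eq_top_iff, ← (bas F).span_eq, Submodule.span_le]
  rintro _ ⟨l, rfl⟩
  rw [bas_apply, SetLike.mem_coe]
  rcases le_total l.length n with h | h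
  · exact Submodule.mem_sup_left (wd_mem (S := {l | l.length ≤ n}) h)
  · exact Submodule.mem_sup_right (wd_mem (S := {l | n ≤ l.length}) h)

theorem finite_quot (n : ℕ) : Finite (Q F3 ⧸ Iq F3 n) := by
  classical
  refine Finite.of_surjective (α := Idx n → F3)
    (fun c => ((Ideal.Quotient.mk (E F3) (∑ w : Idx n, c w • wd F3 w.1) : Q F3) :
      Q F3 ⧸ Iq F3 n)) ?_
  intro x
  obtain ⟨y, rfl⟩ := QuotientAddGroup.mk_surjective x
  obtain ⟨r, rfl⟩ := Ideal.Quotient.mk_surjective y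
  have hr : r ∈ Ble F3 n ⊔ Ge F3 n := by rw [Ble_sup_Ge]; trivial
  obtain ⟨b, hb, g, hg, rfl⟩ := Submodule.mem_sup.mp hr
  refine ⟨fun w => cf F3 w.1 b, ?_⟩
  change ((Ideal.Quotient.mk (E F3) (∑ w : Idx n, cf F3 w.1 b • wd F3 w.1) : Q F3) :
      Q F3 ⧸ Iq F3 n) = _
  rw [sum_Ble hb]
  apply QuotientAddGroup.eq.mpr
  rw [map_add, neg_add_cancel_left]
  exact mk_mem_Iq hg

/-! ### the third generator -/

section third

variable {Q : Type} [Ring Q] {I : ℕ → AddSubgroup Q}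

/-- there is an element of the group on which the product of the two transvections
does not act as an Engel element -/
theorem exists_third (hI : Filt Q I) (v : ℕ → Q)
    (hrec : ∀ n, v (n + 2) = v n * v (n + 1) - v (n + 1) * v n)
    (hv : ∀ n, v n ∈ I (dg3 n)) (hne : ∀ n, v (2 * n) ∉ I (dg3 (2 * n) + 1)) :
    ∃ C ∈ GG hI, ∀ k : ℕ, (comm (tr 0 1 (by decide) * tr 1 2 (by decide)))^[k] C ≠ 1 := by
  -- the units
  obtain ⟨p, hp⟩ : ∃ p : Qˣ, (p : Q) = 1 + v 0 := by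
    have h1 : IsNilpotent (v 0) := hI.nil (hI.anti (by norm_num [dg3]) (hv 0))
    obtain ⟨u, hu⟩ := h1.isUnit_one_add
    exact ⟨u, hu⟩
  obtain ⟨q, hq⟩ : ∃ q : Qˣ, (q : Q) = 1 + v 1 := by
    have h1 : IsNilpotent (v 1) := hI.nil (hI.anti (by norm_num [dg3]) (hv 1))
    obtain ⟨u, hu⟩ := h1.isUnit_one_add
    exact ⟨u, hu⟩
  have hp1 : (p : Q) - 1 ∈ I 1 := by
    rw [hp, add_sub_cancel_left]
    exact hI.anti (by norm_num [dg3]) (hv 0)
  have hq1 : (q : Q) - 1 ∈ I 1 := by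
    rw [hq, add_sub_cancel_left]
    exact hI.anti (by norm_num [dg3]) (hv 1)
  set w : Fin 3 → Qˣ := ![p⁻¹, 1, p * q] with hw
  have hw1 : ∀ i, ((w i : Qˣ) : Q) - 1 ∈ I 1 := by
    intro i
    fin_cases i
    · exact hI.inv_sub p hp1
    · change ((1 : Qˣ) : Q) - 1 ∈ I 1
      rw [Units.val_one, sub_self]; exact zero_mem _
    · exact hI.prod_sub_one p q hp1 hq1
  have hEnt : ∀ u : Fin 3 → Qˣ, (∀ i, ((u i : Qˣ) : Q) - 1 ∈ I 1) →
      Ent (I 1) (((dgU u : (Matrix (Fin 3) (Fin 3) Q)ˣ) : Matrix (Fin 3) (Fin 3) Q) - 1) := by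
    intro u hu i j
    change (diagonal (fun i => ((u i : Qˣ) : Q)) - 1 : Matrix (Fin 3) (Fin 3) Q) i j ∈ I 1
    rw [Matrix.sub_apply]
    by_cases hij : i = j
    · subst hij
      rw [diagonal_apply_eq, one_apply_eq]; exact hu i
    · rw [diagonal_apply_ne _ hij, one_apply_ne hij, sub_zero]; exact zero_mem _
  have hconj : ∀ D : (Matrix (Fin 3) (Fin 3) Q)ˣ,
      Ent (I 1) ((D : Matrix (Fin 3) (Fin 3) Q) - 1) →
      UT (I 1) (((Pm hI.three)⁻¹ * D * Pm hI.three : (Matrix (Fin 3) (Fin 3) Q)ˣ) :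
        Matrix (Fin 3) (Fin 3) Q) := by
    intro D hD
    apply UT_of_Ent
    have e : (((Pm hI.three)⁻¹ * D * Pm hI.three : (Matrix (Fin 3) (Fin 3) Q)ˣ) :
        Matrix (Fin 3) (Fin 3) Q) - 1 =
        (((Pm hI.three)⁻¹ : (Matrix (Fin 3) (Fin 3) Q)ˣ) : Matrix (Fin 3) (Fin 3) Q) *
        ((D : Matrix (Fin 3) (Fin 3) Q) - 1) *
        ((Pm hI.three : (Matrix (Fin 3) (Fin 3) Q)ˣ) : Matrix (Fin 3) (Fin 3) Q) := by
      rw [mul_sub, sub_mul, mul_one, Units.inv_mul, Units.val_mul, Units.val_mul]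
    rw [e]
    exact hI.Ent_mulR (hI.Ent_mulL hD)
  have hdinv : (dgU w)⁻¹ = dgU (fun i => (w i)⁻¹) := by
    apply Units.ext
    rfl
  have hmem : (Pm hI.three)⁻¹ * dgU w * Pm hI.three ∈ GG hI := by
    refine ⟨hconj _ (hEnt w hw1), ?_⟩
    have e : ((Pm hI.three)⁻¹ * dgU w * Pm hI.three)⁻¹ =
        (Pm hI.three)⁻¹ * dgU (fun i => (w i)⁻¹) * Pm hI.three := by
      rw [← hdinv]; group
    rw [e]
    exact hconj _ (hEnt _ (fun i => hI.inv_sub _ (hw1 i)))
  refine ⟨_, hmem, ?_⟩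
  intro k hk'
  rw [Pm_conj hI.three, iterate_comm_conj, iterate_comm_Cp] at hk'
  have hk2 : dgU (Tm^[k] w) = 1 := by
    have : dgU (Tm^[k] w) = Pm hI.three * ((Pm hI.three)⁻¹ * dgU (Tm^[k] w) * Pm hI.three) *
        (Pm hI.three)⁻¹ := by group
    rw [this, hk']; group
  rw [← dgU_one] at hk2
  have hk3 : Tm^[k] w = 1 := dgU_injective hk2
  -- leading terms
  have hTone : Tm (1 : Fin 3 → Qˣ) = 1 := by
    funext i
    simp [Tm]
  have hg0 : gam w 0 = p := by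
    simp [gam, Tm, hw]
  have hg1 : gam w 1 = q := by
    have a1 : (0 : Fin 3) + 1 = 1 := rfl
    have a2 : (1 : Fin 3) + 1 = 2 := rfl
    change Tm (Tm w) 0 = q
    simp only [Tm, a1, a2, hw]
    simp
  have hlead := hI.gam_leading v hrec hv w
    (by rw [hg0, hp, add_sub_cancel_left, sub_self]; exact zero_mem _)
    (by rw [hg1, hq, add_sub_cancel_left, sub_self]; exact zero_mem _)
  have hgam : ∀ n, k ≤ n + 1 → gam w n = 1 := by
    intro n hn
    obtain ⟨m, hm⟩ := Nat.exists_eq_add_of_le hn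
    rw [gam, hm, add_comm k m, Function.iterate_add_apply, hk3]
    have : ∀ m, Tm^[m] (1 : Fin 3 → Qˣ) = 1 := by
      intro m
      induction m with
      | zero => rfl
      | succ m ih => rw [Function.iterate_succ_apply', ih, hTone]
    rw [this]; rfl
  apply hne k
  have h1 := hlead (2 * k)
  rw [hgam (2 * k) (by omega), Units.val_one, sub_self, zero_sub] at h1
  exact neg_mem_iff.mp h1

/-! ### orders of the transvections -/

theorem tr_ne_one (h1 : (1 : Q) ≠ 0) {i j : Fin 3} (hij : i ≠ j) :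
    (tr i j hij : (Matrix (Fin 3) (Fin 3) Q)ˣ) ≠ 1 := by
  intro h
  have h2 := congrArg (fun u : (Matrix (Fin 3) (Fin 3) Q)ˣ =>
    (u : Matrix (Fin 3) (Fin 3) Q) i j) h
  change (1 + single i j (1 : Q)) i j = (1 : Matrix (Fin 3) (Fin 3) Q) i j at h2
  rw [Matrix.add_apply, single_apply_same, one_apply_ne hij, zero_add] at h2
  exact h1 h2

theorem tr_cube (hI : Filt Q I) {i j : Fin 3} (hij : i ≠ j) :
    (tr i j hij : (Matrix (Fin 3) (Fin 3) Q)ˣ) ^ 3 = 1 := by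
  apply Units.ext
  rw [Units.val_pow_eq_pow_val, Units.val_one]
  change (1 + single i j (1 : Q)) ^ 3 = 1
  have h := hI.one_add_pow (single i j (1 : Q)) 1
  rw [pow_one] at h
  have e : (single i j (1 : Q) : Matrix (Fin 3) (Fin 3) Q) ^ 3 =
      single i j (1 : Q) * single i j (1 : Q) * single i j (1 : Q) := by noncomm_ring
  rw [h, e, single_mul_single_of_ne _ _ _ _ hij.symm, zero_mul, add_zero]

theorem Cp_cube : (Cp : (Matrix (Fin 3) (Fin 3) Q)ˣ) ^ 3 = 1 := by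
  apply Units.ext
  rw [Units.val_pow_eq_pow_val, Units.val_one]
  have e3 : ((Cp : (Matrix (Fin 3) (Fin 3) Q)ˣ) : Matrix (Fin 3) (Fin 3) Q) =
      !![0, 0, 1; 1, 0, 0; 0, 1, 0] := rfl
  have e : ∀ M : Matrix (Fin 3) (Fin 3) Q, M ^ 3 = M * M * M := by
    intro M; noncomm_ring
  rw [e, e3]
  ext i j
  fin_cases i <;> fin_cases j <;> simp [Matrix.mul_apply, Fin.sum_univ_three]

theorem Cp_ne_one (h1 : (1 : Q) ≠ 0) : (Cp : (Matrix (Fin 3) (Fin 3) Q)ˣ) ≠ 1 := by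
  intro h
  have h2 := congrArg (fun u : (Matrix (Fin 3) (Fin 3) Q)ˣ =>
    (u : Matrix (Fin 3) (Fin 3) Q) 1 0) h
  change (1 : Q) = (1 : Matrix (Fin 3) (Fin 3) Q) 1 0 at h2
  rw [one_apply_ne (by decide)] at h2
  exact h1 h2

theorem prod_cube (hI : Filt Q I) :
    (tr 0 1 (by decide) * tr 1 2 (by decide) : (Matrix (Fin 3) (Fin 3) Q)ˣ) ^ 3 = 1 := by
  rw [Pm_conj hI.three]
  have e : ((Pm hI.three)⁻¹ * Cp * Pm hI.three) ^ 3 =
      (Pm hI.three)⁻¹ * (Cp ^ 3) * Pm hI.three := by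
    simp only [pow_succ, pow_zero, one_mul]
    group
  rw [e, Cp_cube, mul_one, inv_mul_cancel]

theorem prod_ne_one (hI : Filt Q I) (h1 : (1 : Q) ≠ 0) :
    (tr 0 1 (by decide) * tr 1 2 (by decide) : (Matrix (Fin 3) (Fin 3) Q)ˣ) ≠ 1 := by
  rw [Pm_conj hI.three]
  intro h
  apply Cp_ne_one h1
  have e : (Cp : (Matrix (Fin 3) (Fin 3) Q)ˣ) =
      Pm hI.three * ((Pm hI.three)⁻¹ * Cp * Pm hI.three) * (Pm hI.three)⁻¹ := by group
  rw [e, h, mul_one, mul_inv_cancel]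

end third

/-! ### groups that are residually finite three groups -/

/-- in a group that is residually a finite three group the order of each element of finite
order is a power of three -/
theorem order_of_residual {G : Type*} [Group G]
    (hG : ∀ g : G, g ≠ 1 → ∃ N : Subgroup G, N.Normal ∧ (∃ k : ℕ, N.index = 3 ^ k) ∧ g ∉ N)
    (x : G) (hx : IsOfFinOrder x) : ∃ k : ℕ, orderOf x = 3 ^ k := by
  have key : ∀ y : G, ∀ m : ℕ, Nat.Coprime m 3 → y ^ m = 1 → y = 1 := by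
    intro y m hm hy
    by_contra hne
    obtain ⟨N, hN, ⟨k, hk⟩, hyN⟩ := hG y hne
    apply hyN
    rw [← QuotientGroup.eq_one_iff (N := N)]
    have h1 : ((y : G ⧸ N)) ^ m = 1 := by
      rw [← QuotientGroup.mk_pow, hy, QuotientGroup.mk_one]
    have h2 : ((y : G ⧸ N)) ^ (3 ^ k) = 1 := by
      rw [← hk, Subgroup.index]
      exact pow_card_eq_one'
    have h3 : orderOf (y : G ⧸ N) ∣ m := orderOf_dvd_of_pow_eq_one h1
    have h4 : orderOf (y : G ⧸ N) ∣ 3 ^ k := orderOf_dvd_of_pow_eq_one h2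
    have h5 : Nat.Coprime m (3 ^ k) := Nat.Coprime.pow_right k hm
    have h6 : orderOf (y : G ⧸ N) = 1 := Nat.eq_one_of_dvd_coprimes h5 h3 h4
    exact orderOf_eq_one_iff.mp h6
  have hpos : 0 < orderOf x := orderOf_pos_iff.mpr hx
  obtain ⟨k, m, hm, hkm⟩ := Nat.exists_eq_pow_mul_and_not_dvd hpos.ne' 3 (by norm_num)
  have hc : Nat.Coprime m 3 := by
    rw [Nat.coprime_comm, Nat.Prime.coprime_iff_not_dvd (by norm_num)]
    exact hm
  have h1 : x ^ 3 ^ k = 1 := by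
    apply key _ m hc
    rw [← pow_mul, ← hkm]
    exact pow_orderOf_eq_one x
  exact (Nat.dvd_prime_pow (by norm_num)).mp (orderOf_dvd_of_pow_eq_one h1) |>.imp
    fun j hj => hj.2

/-! ### the final form -/

theorem exists_residual_counterexample :
    ∃ (G : Type) (_ : Group G) (a b c : G),
      Subgroup.closure {a, b, c} = ⊤ ∧
      (∀ g : G, g ≠ 1 → ∃ N : Subgroup G, N.Normal ∧ (∃ k : ℕ, N.index = 3 ^ k) ∧ g ∉ N) ∧
      (∀ x : G, IsOfFinOrder x → ∃ k : ℕ, orderOf x = 3 ^ k) ∧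
      (∀ x : G, x ^ 2 = 1 → x = 1) ∧
      orderOf a = 3 ∧ orderOf b = 3 ∧ orderOf (a * b) = 3 ∧
      (∀ h : G, ∃ k : ℕ, (fun x : G => x⁻¹ * a⁻¹ * x * a)^[k] h = 1) ∧
      (∀ h : G, ∃ k : ℕ, (fun x : G => x⁻¹ * b⁻¹ * x * b)^[k] h = 1) ∧
      (∀ k : ℕ, (fun x : G => x⁻¹ * (a * b)⁻¹ * x * (a * b))^[k] c ≠ 1) := by
  have hI := filt_Q
  have hne : ∀ n, Ideal.Quotient.mk (E F3) (vf F3 (2 * n)) ∉ Iq F3 (dg3 (2 * n) + 1) :=
    fun n => vf_not_mem n
  have h1 : (1 : Q F3) ≠ 0 := by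
    intro h
    apply hne 0
    have : Ideal.Quotient.mk (E F3) (vf F3 (2 * 0)) = 0 := by
      rw [← mul_one (Ideal.Quotient.mk (E F3) (vf F3 (2 * 0))), h, mul_zero]
    rw [this]
    exact zero_mem _
  obtain ⟨C, hC, hCk⟩ := exists_third hI (fun n => Ideal.Quotient.mk (E F3) (vf F3 n))
    (fun n => by
      change Ideal.Quotient.mk (E F3) (vf F3 (n + 2)) = _
      rw [vf, map_sub, map_mul, map_mul]) (fun n => mk_mem_Iq (vf_mem n)) hne
  set A : (Matrix (Fin 3) (Fin 3) (Q F3))ˣ := tr 0 1 (by decide) with hA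
  set D : (Matrix (Fin 3) (Fin 3) (Q F3))ˣ := tr 1 2 (by decide) with hD
  have hAG : A ∈ GG hI := tr_mem hI (i := 0) (j := 1) (by decide)
  have hDG : D ∈ GG hI := tr_mem hI (i := 1) (j := 2) (by decide)
  set K : Subgroup (Matrix (Fin 3) (Fin 3) (Q F3))ˣ := Subgroup.closure {A, D, C} with hK
  have hKG : K ≤ GG hI := by
    rw [hK, Subgroup.closure_le]
    rintro x (rfl | rfl | rfl)
    · exact hAG
    · exact hDG
    · exact hC
  have hAK : A ∈ K := Subgroup.subset_closure (by simp)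
  have hDK : D ∈ K := Subgroup.subset_closure (by simp)
  have hCK : C ∈ K := Subgroup.subset_closure (by simp)
  have hcoe : ∀ (g h : K) (k : ℕ),
      ((((fun x : K => x⁻¹ * g⁻¹ * x * g)^[k] h : K)) : (Matrix (Fin 3) (Fin 3) (Q F3))ˣ) =
      (comm (g : (Matrix (Fin 3) (Fin 3) (Q F3))ˣ))^[k] h := by
    intro g h k
    induction k with
    | zero => rfl
    | succ k ih =>
      rw [Function.iterate_succ_apply', Function.iterate_succ_apply', ← ih]
      simp [comm]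
  have hres : ∀ g : K, g ≠ 1 → ∃ N : Subgroup K, N.Normal ∧ (∃ k : ℕ, N.index = 3 ^ k) ∧
      g ∉ N := by
    intro g hg
    obtain ⟨n, hn⟩ := Cong_sep hI hg
    haveI := finite_quot n
    exact ⟨Cong hI K n, Cong_normal hI K n, Cong_index hI hKG n, hn⟩
  have hord := order_of_residual hres
  have ord3 : ∀ x : (Matrix (Fin 3) (Fin 3) (Q F3))ˣ, ∀ hx : x ∈ K, x ^ 3 = 1 → x ≠ 1 →
      orderOf (⟨x, hx⟩ : K) = 3 := by
    intro x hx h3 hx1
    refine orderOf_eq_prime (p := 3) ?_ ?_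
    · exact Subtype.ext (by rw [Subgroup.coe_pow, Subgroup.coe_one]; exact h3)
    · intro h
      exact hx1 (congrArg Subtype.val h)
  refine ⟨K, inferInstance, ⟨A, hAK⟩, ⟨D, hDK⟩, ⟨C, hCK⟩, ?_, hres, hord, ?_, ?_, ?_, ?_, ?_, ?_, ?_⟩
  · have h := Subgroup.closure_closure_coe_preimage
      (k := ({A, D, C} : Set (Matrix (Fin 3) (Fin 3) (Q F3))ˣ))
    rw [eq_top_iff] at h ⊢
    refine h.trans ?_
    rw [Subgroup.closure_le]
    intro x hx
    have hx' : (x : (Matrix (Fin 3) (Fin 3) (Q F3))ˣ) = A ∨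
        (x : (Matrix (Fin 3) (Fin 3) (Q F3))ˣ) = D ∨
        (x : (Matrix (Fin 3) (Fin 3) (Q F3))ˣ) = C := hx
    apply Subgroup.subset_closure
    rcases hx' with h | h | h
    · exact Or.inl (Subtype.ext h)
    · exact Or.inr (Or.inl (Subtype.ext h))
    · exact Or.inr (Or.inr (Subtype.ext h))
  · intro x hx
    have hfin : IsOfFinOrder x := isOfFinOrder_iff_pow_eq_one.mpr ⟨2, by norm_num, hx⟩
    obtain ⟨k, hk⟩ := hord x hfin
    have hdvd : orderOf x ∣ 2 := orderOf_dvd_of_pow_eq_one hx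
    rw [hk] at hdvd
    have hk0 : k = 0 := by
      by_contra hk0
      have h3 : 3 ∣ 2 := (dvd_pow_self 3 hk0).trans hdvd
      norm_num at h3
    rw [hk0, pow_zero] at hk
    exact orderOf_eq_one_iff.mp hk
  · exact ord3 A hAK (tr_cube hI _) (tr_ne_one h1 _)
  · exact ord3 D hDK (tr_cube hI _) (tr_ne_one h1 _)
  · exact ord3 (A * D) (K.mul_mem hAK hDK) (prod_cube hI) (prod_ne_one hI h1)
  · intro h
    obtain ⟨k, hk⟩ := tr_engel hI (i := 0) (j := 1) (by decide) h.1 (hKG h.2)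
    exact ⟨k, Subtype.ext (by rw [hcoe]; exact hk)⟩
  · intro h
    obtain ⟨k, hk⟩ := tr_engel hI (i := 1) (j := 2) (by decide) h.1 (hKG h.2)
    exact ⟨k, Subtype.ext (by rw [hcoe]; exact hk)⟩
  · intro k hk
    apply hCk k
    have h2 := congrArg Subtype.val hk
    have h3 := hcoe (⟨A, hAK⟩ * ⟨D, hDK⟩) ⟨C, hCK⟩ k
    rw [h2] at h3
    exact h3.symm

end Pool.EngelNI
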